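import Mathlib

/-!
The automorphism group of the real form of a rational Lie algebra, in coordinates.
-/

namespace Pool.Agent.MP_2b113a_an.H33

open Matrix

variable {n : ℕ} {L : Type} [LieRing L] [LieAlgebra ℚ L]

/-- The bracket of the real Lie algebra `ℝ ⊗ L`, in the coordinates of the basis `b` of `L`. -/
noncomputable def brk (b : Module.Basis (Fin n) ℚ L) (x y : Fin n → ℝ) : Fin n → ℝ :=
  fun k => ∑ i, ∑ j, x i * y j * ((b.repr ⁅b i, b j⁆ k : ℚ) : ℝ)

/-- The automorphism group of `ℝ ⊗ L`, as a group of real matrices. -/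
def Aut (b : Module.Basis (Fin n) ℚ L) : Subgroup (GL (Fin n) ℝ) where
  carrier := {A | ∀ x y, A.1 *ᵥ brk b x y = brk b (A.1 *ᵥ x) (A.1 *ᵥ y)}
  one_mem' := by simp
  mul_mem' := by
    intro A B hA hB x y
    simp only [Units.val_mul, ← mulVec_mulVec]
    rw [hB, hA]
  inv_mem' := by
    intro A hA x y
    have h := hA (A⁻¹.1 *ᵥ x) (A⁻¹.1 *ᵥ y)
    simp only [mulVec_mulVec, Units.mul_inv, one_mulVec] at h
    rw [← h, mulVec_mulVec, Units.inv_mul, one_mulVec]

/-- The integral points: the automorphisms whose matrix and inverse matrix have integer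
entries. -/
def AutZ (b : Module.Basis (Fin n) ℚ L) : Subgroup (Aut b) where
  carrier := {A | (∀ i j, ∃ z : ℤ, A.1.1 i j = z) ∧ ∀ i j, ∃ z : ℤ, (A.1⁻¹).1 i j = z}
  one_mem' := by
    refine ⟨fun i j => ⟨if i = j then 1 else 0, ?_⟩, fun i j => ⟨if i = j then 1 else 0, ?_⟩⟩ <;>
      simp [Matrix.one_apply]
  mul_mem' := by
    rintro A B ⟨hA, hA'⟩ ⟨hB, hB'⟩
    choose a ha using hA
    choose a' ha' using hA'
    choose c hc using hB
    choose c' hc' using hB'
    refine ⟨fun i j => ⟨∑ k, a i k * c k j, ?_⟩, fun i j => ⟨∑ k, c' i k * a' k j, ?_⟩⟩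
    · simp [Matrix.mul_apply, ha, hc]
    · rw [Subgroup.coe_mul, _root_.mul_inv_rev, Units.val_mul, Matrix.mul_apply]
      simp only [ha', hc']
      simp
  inv_mem' := by
    rintro A ⟨hA, hA'⟩
    exact ⟨hA', by simpa using hA⟩

end Pool.Agent.MP_2b113a_an.H33
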