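import Mathlib
import Pool.Agent.MP_2b113a_an.H83.Defs
import Pool.Agent.MP_2b113a_an.H33.Stmt

/-!
Interfaces for the theorem: every elementwise conservative action of a lattice of rational rank at
least two has an equivalent invariant probability measure.
-/

namespace Pool.Agent.MP_2b113a_an.H33

open MeasureTheory Filter Topology Polynomial
open scoped ENNReal NNReal InnerProductSpace Matrix

/-! ### Rational Lie algebras -/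

section Lie

variable {L : Type} [LieRing L] [LieAlgebra ℚ L]

/-- The adjoint map. -/
abbrev ad (x : L) : Module.End ℚ L := LieAlgebra.ad ℚ L x

/-- Nilpotent elements. -/
def Nil (x : L) : Prop := IsNilpotent (ad x)

/-- Eigenspaces of the adjoint map. -/
def eig (s : L) (c : ℚ) : Submodule ℚ L := (ad s).eigenspace c

/-- Split semisimple elements. -/
def Diag (s : L) : Prop := ⨆ c : ℚ, eig s c = ⊤

/-- The sum of the positive eigenspaces. -/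
def pos (s : L) : Submodule ℚ L := ⨆ c : ℚ, ⨆ _ : 0 < c, eig s c

/-- The sum of the nonnegative eigenspaces. -/
def par (s : L) : Submodule ℚ L := ⨆ c : ℚ, ⨆ _ : 0 ≤ c, eig s c

/-- The exponential of a nilpotent element. -/
noncomputable def ex (x : L) : Module.End ℚ L := IsNilpotent.exp (ad x)

/-- Automorphisms. -/
structure IsAut (g : Module.End ℚ L) : Prop where
  bij : Function.Bijective g
  lie : ∀ x y, g ⁅x, y⁆ = ⁅g x, g y⁆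

/-- The span of a list. -/
def sp (l : List L) : Submodule ℚ L := Submodule.span ℚ {z | z ∈ l}

/-- Each entry normalises the span of the later entries. -/
def Flag : List L → Prop
  | [] => True
  | x :: l => (∀ y ∈ sp l, ⁅x, y⁆ ∈ sp l) ∧ Flag l

/-- A central flag: `u` maps each entry into the span of the later entries. -/
def CFlag (u : Submodule ℚ L) : List L → Prop
  | [] => True
  | x :: l => (∀ y ∈ u, ⁅y, x⁆ ∈ sp l) ∧ CFlag u l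

/-- Sets that are subalgebras inside each unipotent radical. -/
structure CL (R : Set L) : Prop where
  zero : 0 ∈ R
  smul : ∀ (c : ℚ), ∀ x ∈ R, c • x ∈ R
  add : ∀ σ, Diag σ → ∀ x ∈ pos σ, ∀ y ∈ pos σ, x ∈ R → y ∈ R → x + y ∈ R
  lie : ∀ σ, Diag σ → ∀ x ∈ pos σ, ∀ y ∈ pos σ, x ∈ R → y ∈ R → ⁅x, y⁆ ∈ R

variable (L) in
/-- A maximal split torus of dimension at least two. -/
structure Tor where
  S : Submodule ℚ L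
  comm : ∀ s ∈ S, ∀ t ∈ S, ⁅s, t⁆ = 0
  diag : ∀ s ∈ S, Diag s
  max : ∀ x, Diag x → (∀ s ∈ S, ⁅s, x⁆ = 0) → x ∈ S
  rank : 2 ≤ Module.finrank ℚ S

/-- Weight spaces. -/
def Tor.wt (τ : Tor L) (β : Module.Dual ℚ τ.S) : Submodule ℚ L := ⨅ s : τ.S, eig (s : L) (β s)

/-- The standard plane module of a pair of nilpotent elements. -/
structure Cfg1 (X Y v₀ v₁ : L) : Prop where
  nX : Nil X
  nY : Nil Y
  n0 : Nil v₀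
  n1 : Nil v₁
  c01 : ⁅v₀, v₁⁆ = 0
  X0 : ⁅X, v₀⁆ = 0
  X1 : ⁅X, v₁⁆ = v₀
  Y0 : ⁅Y, v₀⁆ = v₁
  Y1 : ⁅Y, v₁⁆ = 0

/-- The symmetric square module of a pair of nilpotent elements. -/
structure Cfg2 (X Y v₀ v₁ v₂ : L) : Prop where
  nX : Nil X
  nY : Nil Y
  n0 : Nil v₀
  n1 : Nil v₁
  n2 : Nil v₂
  c01 : ⁅v₀, v₁⁆ = 0
  c02 : ⁅v₀, v₂⁆ = 0
  c12 : ⁅v₁, v₂⁆ = 0
  X0 : ⁅X, v₀⁆ = 0
  X1 : ⁅X, v₁⁆ = (2 : ℚ) • v₀
  X2 : ⁅X, v₂⁆ = v₁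
  Y0 : ⁅Y, v₀⁆ = v₁
  Y1 : ⁅Y, v₁⁆ = (2 : ℚ) • v₂
  Y2 : ⁅Y, v₂⁆ = 0

/-- The configuration used for the core theorem and for property (T). -/
def Conf (v₀ : L) : Prop :=
  ∃ X Y : L, Diag ⁅X, Y⁆ ∧ ⁅X, Y⁆ ≠ 0 ∧ (∃ Z, ⁅v₀, Z⁆ = X) ∧
    ((∃ v₁, Cfg1 X Y v₀ v₁ ∧ ∃ Z, ⁅v₁, Z⁆ = Y) ∨ ∃ v₁ v₂, Cfg2 X Y v₀ v₁ v₂ ∧ ∃ Z, ⁅v₂, Z⁆ = Y)

/-- Two compatible parabolic subalgebras that generate everything. `eig s₂ d` is the lowest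
eigenspace of `s₂`. -/
structure Pair (τ : Tor L) where
  s₁ : τ.S
  s₂ : τ.S
  ne₁ : s₁ ≠ 0
  compat : ∀ β, τ.wt β ≠ ⊥ → 0 ≤ β s₁ * β s₂
  α : Module.Dual ℚ τ.S
  Y : L
  Y_mem : Y ∈ τ.wt (-α)
  α₁ : α s₁ = 0
  α₂ : 0 < α s₂
  gen : ∀ c : ℚ, c ≠ 0 → ∀ k : LieSubalgebra ℚ L,
    (∀ β, β ≠ 0 → 0 ≤ β s₂ → ∀ x ∈ τ.wt β, ∀ i : Fin 3, ex (-(((i : ℕ) : ℚ) * c) • Y) x ∈ k) →
      k = ⊤
  d : ℚ
  d_neg : d < 0
  low_ne : eig (s₂ : L) d ≠ ⊥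
  low : ∀ c < d, eig (s₂ : L) c = ⊥
  irr : ∀ W : Submodule ℚ L, W ≠ ⊥ → (∀ x ∈ par (-(s₂ : L)), ∀ y ∈ W, ⁅x, y⁆ ∈ W) →
    eig (s₂ : L) d ≤ W
  nz : ∃ t ∈ eig (s₂ : L) d, ⁅(s₁ : L), t⁆ ≠ 0

/-- The lattice spanned by a basis. -/
def lat {n : ℕ} (b : Module.Basis (Fin n) ℚ L) : Submodule ℤ L := Submodule.span ℤ (Set.range b)

/-- The entries of `l'` are multiples of the entries of `l` by integers divisible by `q`. -/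
def Lev (q : ℕ) (l' l : List L) : Prop :=
  List.Forall₂ (fun z' z => ∃ t : ℤ, z' = ((t : ℚ) * q) • z) l' l

variable (L) in
/-- An arithmetic group with its unipotent elements. -/
structure AG (Γ : Type) [Group Γ] where
  n : ℕ
  b : Module.Basis (Fin n) ℚ L
  act : Γ →* Module.End ℚ L
  E : L → Γ
  lie_mem : ∀ x ∈ lat b, ∀ y ∈ lat b, ⁅x, y⁆ ∈ lat b
  div_mem : ∀ x ∈ lat b, Nil x → ∀ y ∈ lat b, ∀ j : ℕ, (j.factorial : ℚ)⁻¹ • (ad x ^ j) y ∈ lat b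
  act_mem : ∀ g, ∀ x ∈ lat b, act g x ∈ lat b
  act_lie : ∀ g x y, act g ⁅x, y⁆ = ⁅act g x, act g y⁆
  act_E : ∀ x ∈ lat b, Nil x → act (E x) = ex x
  E_conj : ∀ g, ∀ x ∈ lat b, Nil x → g * E x * g⁻¹ = E (act g x)
  E_add : ∀ x ∈ lat b, ∀ y ∈ lat b, Nil x → Nil y → ⁅x, y⁆ = 0 → E (x + y) = E x * E y
  E_unip : ∀ σ, Diag σ → ∀ l : List L, (∀ x ∈ l, x ∈ lat b ∧ x ∈ pos σ) →
    (l.map ex).prod = 1 → (l.map E).prod = 1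
  dens : ∀ Z : Set L, (∀ z ∈ Z, z ∈ lat b ∧ Nil z) → LieSubalgebra.lieSpan ℚ L Z = ⊤ →
    ∀ p : MvPolynomial (Fin n × Fin n) ℚ,
      (∀ u ∈ Subgroup.closure (E '' Z),
        MvPolynomial.eval (fun ij => b.repr (act u (b ij.2)) ij.1) p = 0) →
      ∀ g, MvPolynomial.eval (fun ij => b.repr (act g (b ij.2)) ij.1) p = 0

end Lie

/-- Graded Jacobson-Morozov theorem, with the surjectivity that follows from it. -/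
def TripleStmt : Prop :=
  ∀ (L : Type) [LieRing L] [LieAlgebra ℚ L] [Module.Finite ℚ L] [LieAlgebra.IsSimple ℚ L]
    (τ : Tor L) (α : Module.Dual ℚ τ.S) (X : L), X ∈ τ.wt α → X ≠ 0 → α ≠ 0 →
    ∃ (H : τ.S) (Y : L), Y ∈ τ.wt (-α) ∧ IsSl2Triple (H : L) X Y ∧
      (∀ β : Module.Dual ℚ τ.S, τ.wt β ≠ ⊥ → ∃ k : ℤ, β H = k) ∧
      (∀ β : Module.Dual ℚ τ.S, 0 < β H → ∀ y ∈ τ.wt β, ∃ z ∈ τ.wt (β - α), ⁅X, z⁆ = y) ∧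
      ∀ β : Module.Dual ℚ τ.S, β H < 0 → ∀ y ∈ τ.wt β, ∃ z ∈ τ.wt (β + α), ⁅Y, z⁆ = y

def ConfStmt : Prop :=
  ∀ (L : Type) [LieRing L] [LieAlgebra ℚ L] [Module.Finite ℚ L] [LieAlgebra.IsSimple ℚ L]
    (τ : Tor L), ∃ θ : Module.Dual ℚ τ.S, θ ≠ 0 ∧ ∃ v₀ ∈ τ.wt θ, v₀ ≠ 0 ∧ Conf v₀

def PairStmt : Prop :=
  ∀ (L : Type) [LieRing L] [LieAlgebra ℚ L] [Module.Finite ℚ L] [LieAlgebra.IsSimple ℚ L]
    (τ : Tor L), Nonempty (Pair τ)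

/-- An invariant closed family with one weight vector contains all weight vectors. -/
def TwoStmt : Prop :=
  ∀ (L : Type) [LieRing L] [LieAlgebra ℚ L] [Module.Finite ℚ L] [LieAlgebra.IsSimple ℚ L]
    (τ : Tor L) (B : Set L), CL B → (∀ x, Nil x → ∀ y ∈ B, ex x y ∈ B) →
    (∃ θ : Module.Dual ℚ τ.S, θ ≠ 0 ∧ ∃ v ∈ τ.wt θ, v ≠ 0 ∧ v ∈ B) →
    ∀ β : Module.Dual ℚ τ.S, β ≠ 0 → ∀ x ∈ τ.wt β, x ∈ B

/-- Commuting projections produce a state in which all weight vectors are present. -/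
def ThreeStmt : Prop :=
  ∀ (L : Type) [LieRing L] [LieAlgebra ℚ L] [Module.Finite ℚ L] [LieAlgebra.IsSimple ℚ L]
    (τ : Tor L) (Ξ : Type) (R : Ξ → Set L) (Q : L → Ξ → Ξ) (P : Ξ → Prop),
    (∀ ξ, CL (R ξ)) → (∀ y, Nil y → ∀ ξ, y ∈ R (Q y ξ)) → (∀ ξ, ∀ y ∈ R ξ, Q y ξ = ξ) →
    (∀ σ, Diag σ → ∀ x ∈ pos σ, ∀ y ∈ pos σ, ∀ ξ,
      Q x (Q y ξ) = Q y (Q x ξ) ∧ (x ∈ R ξ → x ∈ R (Q y ξ))) →
    (∀ β : Module.Dual ℚ τ.S, β ≠ 0 → ∀ y ∈ τ.wt β, ∀ ξ, P ξ → P (Q y ξ)) → (∃ ξ, P ξ) →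
    ∃ ξ, P ξ ∧ ∀ β : Module.Dual ℚ τ.S, β ≠ 0 → ∀ x ∈ τ.wt β, x ∈ R ξ

/-- Moving the apartment by a root element. -/
def AptStmt : Prop :=
  ∀ (L : Type) [LieRing L] [LieAlgebra ℚ L] [Module.Finite ℚ L] [LieAlgebra.IsSimple ℚ L]
    (τ : Tor L) (R : Set L), CL R → ∀ g : Module.End ℚ L, IsAut g →
    (∀ β : Module.Dual ℚ τ.S, β ≠ 0 → ∀ x ∈ τ.wt β, g x ∈ R) →
    ∀ δ : Module.Dual ℚ τ.S, δ ≠ 0 → ∀ y ∈ τ.wt δ,
      ∀ β : Module.Dual ℚ τ.S, β ≠ 0 → ∀ x ∈ τ.wt β, g (ex y x) ∈ R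

/-- Factorisation of a polynomial curve along a flag. -/
def PCStmt : Prop :=
  ∀ (L : Type) [LieRing L] [LieAlgebra ℚ L] (l : List L), Flag l → (∀ z ∈ l, Nil z) →
    (∀ x ∈ sp l, ∀ y ∈ sp l, ⁅x, y⁆ ∈ sp l) → ∀ X Y : L, X ∈ sp l → (∀ y ∈ sp l, ⁅Y, y⁆ ∈ sp l) →
    Nil Y → Nil (X + Y) →
    ∃ pl : List (ℚ[X] × L), pl.map Prod.snd = l ∧ (∀ a ∈ pl, a.1.eval 0 = 0) ∧
      ∀ t : ℚ, ex (t • (X + Y)) = (pl.map fun a => ex (a.1.eval t • a.2)).prod * ex (t • Y)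

/-- Transitivity and reduction along a flag of eigenvectors. -/
def TRStmt : Prop :=
  ∀ (L : Type) [LieRing L] [LieAlgebra ℚ L] [Module.Finite ℚ L] (σ : L), Diag σ →
    ∀ l : List L, CFlag (pos σ) l → (∀ z ∈ l, ∃ d : ℚ, 0 < d ∧ z ∈ eig σ d) →
    (∀ y ∈ sp l, ∃ l' : List L, List.Forall₂ (fun z' z => ∃ t : ℚ, z' = t • z) l' l ∧
      (l'.map ex).prod σ = σ + y) ∧
    ∀ (Γ : Type) [Group Γ] (A : AG L Γ), (∀ z ∈ l, z ∈ lat A.b) → ∀ q : ℕ, 0 < q →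
      (∀ D : ℕ, 0 < D → ∃ F : Finset L, (∀ f ∈ F, f ∈ sp l) ∧ ∀ y ∈ sp l,
        (D : ℚ) • (σ + y) ∈ lat A.b →
          ∃ f ∈ F, ∃ l', Lev q l' l ∧ (l'.map ex).prod (σ + f) = σ + y) ∧
      (sp l = pos σ → ∃ q' : ℕ, 0 < q' ∧ ∀ x ∈ pos σ, x ∈ lat A.b →
        ∃ l', Lev q l' l ∧ A.E ((q' : ℚ) • x) = (l'.map A.E).prod)

/-- Uniform irreducibility by the Casimir element of the trace form. -/
def UIStmt : Prop :=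
  ∀ (T : Type) [AddCommGroup T] [Module ℚ T] [Module.Finite ℚ T] (S : Set (Module.End ℚ T)),
    (∀ W : Submodule ℚ T, (∀ f ∈ S, ∀ w ∈ W, f w ∈ W) → W = ⊥ ∨ W = ⊤) →
    ∀ e₁ : Module.End ℚ T, LinearMap.trace ℚ T e₁ ≠ 0 →
    ∃ (l : List (Module.End ℚ T × Module.End ℚ T)) (r : ℚ[X]),
      (∀ a ∈ l, a.1 ∈ Algebra.adjoin ℚ S ∧ a.2 ∈ Algebra.adjoin ℚ S) ∧
      ∀ g g' e x y : Module.End ℚ T, g * g' = 1 → g' * g = 1 →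
        (∀ f ∈ S, g * f * g' ∈ S ∧ g' * f * g ∈ S) → x ∈ Algebra.adjoin ℚ S →
        g * e * g' = e₁ + (x * y - y * x) →
        (l.map fun a => a.1 * e * a.2).sum * aeval (l.map fun a => a.1 * e * a.2).sum r = 1

/-- Making finitely many integral polynomial functions coprime by boundedly many letters. -/
def ArithStmt : Prop :=
  ∀ (Γ : Type) [Group Γ] (n : ℕ) (mat : Γ →* Matrix (Fin n) (Fin n) ℤ) (κ ι : Type) [Fintype ι]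
    [Nonempty ι] (e : κ → ℤ → Γ) (P : κ → Matrix (Fin n) (Fin n) ℤ[X])
    (p : ι → MvPolynomial (Fin n × Fin n) ℤ) (φ : ι → Γ → ℤ),
    (∀ k s t, e k (s + t) = e k s * e k t) → (∀ k t i j, mat (e k t) i j = (P k i j).eval t) →
    (∀ i g, φ i g = MvPolynomial.eval (fun ij => mat g ij.1 ij.2) (p i)) → (∀ i, φ i 1 ≠ 0) →
    (∀ k, ∃ i, ∀ t g, φ i (e k t * g) = φ i g) →
    (∀ f : MvPolynomial (Fin n × Fin n) ℚ,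
      (∀ u ∈ Subgroup.closure (Set.range fun k => e k 1),
        MvPolynomial.eval (fun ij => (mat u ij.1 ij.2 : ℚ)) f = 0) →
      ∀ g, MvPolynomial.eval (fun ij => (mat g ij.1 ij.2 : ℚ)) f = 0) →
    ∃ N : ℕ, ∀ q : ℕ, 0 < q → ∃ D : ℕ, 0 < D ∧ ∀ g : Γ, ∃ w : List (κ × ℤ), w.length ≤ N ∧
      (∀ i, φ i ((w.map fun a => e a.1 (a.2 * q)).prod * g) ≠ 0) ∧
      ∃ m : ι → ℤ, ∑ i, m i * φ i ((w.map fun a => e a.1 (a.2 * q)).prod * g) = D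

/-- The elements of the opposite parabolic subalgebra that are conjugate to `s₁` in a controlled
way. -/
def Adm {L : Type} [LieRing L] [LieAlgebra ℚ L] {τ : Tor L} (π : Pair τ) (s : L) : Prop :=
  s ∈ par (-(π.s₂ : L)) ∧ ∃ g : Module.End ℚ L, IsAut g ∧
    (par (-(π.s₂ : L))).map g = par (-(π.s₂ : L)) ∧ g s - π.s₁ ∈ pos (π.s₁ : L)

/-- Every conjugate of the opposite parabolic can be moved by boundedly many letters of a given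
level to one that contains a conjugate of `s₁` with bounded denominator. -/
def GlueStmt : Prop :=
  ∀ (L : Type) [LieRing L] [LieAlgebra ℚ L] [Module.Finite ℚ L] [LieAlgebra.IsSimple ℚ L]
    (τ : Tor L) (π : Pair τ) (Γ : Type) [Group Γ] (A : AG L Γ),
    ∃ (Z : Finset L) (N : ℕ),
      (∀ z ∈ Z, z ∈ lat A.b ∧ ∃ (c : ℚ) (β : Module.Dual ℚ τ.S), β ≠ 0 ∧
        ∃ x ∈ τ.wt β, z = ex (c • π.Y) x) ∧
      ∀ q : ℕ, 0 < q → ∃ D : ℕ, 0 < D ∧ ∀ g : Γ, ∃ (l l' : List L) (s : L),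
        l.length ≤ N ∧ (∀ z ∈ l, z ∈ Z) ∧ Lev q l' l ∧ Adm π s ∧ (D : ℚ) • s ∈ lat A.b ∧
        A.act ((l'.map A.E).prod * g) s - π.s₁ ∈ pos (π.s₁ : L)

/-- A fixed multiple of a lowest vector is a bounded sum of homogeneous vectors and brackets. -/
def FinStmt : Prop :=
  ∀ (L : Type) [LieRing L] [LieAlgebra ℚ L] [Module.Finite ℚ L] [LieAlgebra.IsSimple ℚ L]
    (τ : Tor L) (π : Pair τ) (n : ℕ) (b : Module.Basis (Fin n) ℚ L),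
    (∀ x ∈ lat b, ∀ y ∈ lat b, ⁅x, y⁆ ∈ lat b) → ∀ X₀ ∈ eig (π.s₂ : L) π.d,
    ∃ C : ℕ, ∀ D : ℕ, 0 < D → ∃ N : ℕ, 0 < N ∧ ∀ s : L, Adm π s → (D : ℚ) • s ∈ lat b →
      ∃ l : List L, l.length ≤ C ∧ l.sum = (N : ℚ) • X₀ ∧ ∀ z ∈ l, ∃ d : ℚ, d ≠ 0 ∧
        ((z ∈ eig (π.s₂ : L) π.d ∧ z ∈ lat b ∧ z ∈ eig s d) ∨
          ∃ x t, x ∈ par (-(π.s₂ : L)) ∧ x ∈ lat b ∧ x ∈ eig s d ∧
            t ∈ eig (π.s₂ : L) π.d ∧ t ∈ lat b ∧ t ∈ eig s (-d) ∧ z = ⁅x, t⁆)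

/-! ### Representations -/

section Rep

variable {L : Type} [LieRing L] [LieAlgebra ℚ L] {Γ : Type} [Group Γ]
  {H : Type} [NormedAddCommGroup H] [InnerProductSpace ℝ H]

/-- The nilpotent elements whose high multiples almost fix `ξ`. -/
def AG.R (A : AG L Γ) (π : Γ →* (H ≃ₗᵢ[ℝ] H)) (ξ : H) : Set L :=
  {X | Nil X ∧ ∀ ε : ℝ, 0 < ε → ∃ Q : ℕ, 0 < Q ∧ (Q : ℚ) • X ∈ lat A.b ∧
    ∀ t : ℤ, ‖π (A.E (((t : ℚ) * Q) • X)) ξ - ξ‖ ≤ ε}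

/-- Strictly positive vectors of a cone. -/
def SP (C : Set H) (ξ : H) : Prop := ξ ∈ C ∧ ∀ η ∈ C, ⟪ξ, η⟫_ℝ = 0 → η = 0

/-- Uniform almost invariance under the conjugates of a sequence. -/
def PropU (π : Γ →* (H ≃ₗᵢ[ℝ] H)) (ξ : H) (h : ℕ → Γ) : Prop :=
  ∀ ε : ℝ, 0 < ε → ∃ Q : ℕ, 0 < Q ∧ ∀ a : Γ, ‖π (a * h Q * a⁻¹) ξ - ξ‖ ≤ ε

variable (Γ) in
/-- Property (T). -/
def PropT : Prop :=
  ∀ (H : Type) [NormedAddCommGroup H] [InnerProductSpace ℝ H] [CompleteSpace H]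
    (π : Γ →* (H ≃ₗᵢ[ℝ] H)) (ζ : ℕ → H), (∀ k, ‖ζ k‖ = 1) →
    (∀ g, Tendsto (fun k => ‖π g (ζ k) - ζ k‖) atTop (𝓝 0)) → ∃ v, v ≠ 0 ∧ ∀ g, π g v = v

/-- Amenability modulo the conjugates of a sequence. -/
def PropAM (h : ℕ → Γ) : Prop :=
  ∀ (ι : Type) [Fintype ι] (φ : ι → Γ → ℝ) (γ : ι → Γ) (C : ℝ), (∀ i g, |φ i g| ≤ C) →
    (∀ ε : ℝ, 0 < ε → ∃ Q : ℕ, 0 < Q ∧ ∀ i a g, |φ i (a * h Q * a⁻¹ * g) - φ i g| ≤ ε) →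
    ¬ ∀ g, 1 ≤ ∑ i, (φ i (γ i * g) - φ i g)

end Rep

/-- The projections attached to nilpotent elements commute inside unipotent radicals. -/
def MStmt : Prop :=
  ∀ (L : Type) [LieRing L] [LieAlgebra ℚ L] [Module.Finite ℚ L] (Γ : Type) [Group Γ]
    (A : AG L Γ) (H : Type) [NormedAddCommGroup H] [InnerProductSpace ℝ H] [CompleteSpace H]
    (π : Γ →* (H ≃ₗᵢ[ℝ] H)),
    (∀ ξ, CL (A.R π ξ)) ∧ ∃ Q : L → H → H,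
      (∀ y, Nil y → ∀ ξ, y ∈ A.R π (Q y ξ)) ∧ (∀ ξ, ∀ y ∈ A.R π ξ, Q y ξ = ξ) ∧
      (∀ σ, Diag σ → ∀ x ∈ pos σ, ∀ y ∈ pos σ, ∀ ξ,
        Q x (Q y ξ) = Q y (Q x ξ) ∧ (x ∈ A.R π ξ → x ∈ A.R π (Q y ξ))) ∧
      ∀ C : Set H, IsClosed C → Convex ℝ C → (∀ g, ∀ η ∈ C, π g η ∈ C) →
        ∀ y ζ ξ, SP C ζ → y ∈ A.R π ζ → SP C ξ → SP C (Q y ξ)

/-- The uniform estimate. -/
def UStmt : Prop :=
  ∀ (L : Type) [LieRing L] [LieAlgebra ℚ L] [Module.Finite ℚ L] [LieAlgebra.IsSimple ℚ L]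
    (τ : Tor L) (π : Pair τ) (Γ : Type) [Group Γ] (A : AG L Γ)
    (H : Type) [NormedAddCommGroup H] [InnerProductSpace ℝ H] (ρ : Γ →* (H ≃ₗᵢ[ℝ] H)) (ξ : H),
    CL (A.R ρ ξ) → (∀ β : Module.Dual ℚ τ.S, β ≠ 0 → ∀ x ∈ τ.wt β, x ∈ A.R ρ ξ) →
    ∀ X₀ ∈ eig (π.s₂ : L) π.d, PropU ρ ξ fun Q => A.E ((Q : ℚ) • X₀)

/-! ### The Koopman representation -/

/-- The Koopman representation of a nonsingular action. -/
structure Koop (Γ : Type) [Group Γ] {X : Type} [MeasurableSpace X] [MulAction Γ X]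
    (μ : Measure X) where
  π : Γ →* (Lp ℝ 2 μ ≃ₗᵢ[ℝ] Lp ℝ 2 μ)
  r : Γ → X → ℝ
  r_pos : ∀ g, ∀ᵐ x ∂μ, 0 < r g x
  π_ae : ∀ g f, ∀ᵐ x ∂μ, π g f x = r g x * f (g⁻¹ • x)
  qmp : ∀ g : Γ, Measure.QuasiMeasurePreserving (fun x : X => g • x) μ μ
  of_inv : ∀ (g : Γ) (ν : Measure X), IsFiniteMeasure ν → ν ≪ μ → μ ≪ ν →
    ν.map (fun x : X => g • x) = ν → ∃ f : Lp ℝ 2 μ, (∀ᵐ x ∂μ, 0 < f x) ∧ π g f = f
  to_inv : ∀ f : Lp ℝ 2 μ, (∀ᵐ x ∂μ, 0 < f x) → (∀ g, π g f = f) →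
    ∃ ν : Measure X, IsProbabilityMeasure ν ∧ ν ≪ μ ∧ μ ≪ ν ∧
      ∀ g : Γ, ν.map (fun x : X => g • x) = ν

def KoopStmt : Prop :=
  ∀ (Γ : Type) [Group Γ] (X : Type) [MeasurableSpace X] [MulAction Γ X] (μ : Measure X)
    [IsProbabilityMeasure μ], H83.EC Γ μ → Nonempty (Koop Γ μ)

def ConeStmt : Prop :=
  ∀ (X : Type) [MeasurableSpace X] (μ : Measure X) [IsProbabilityMeasure μ],
    IsClosed {f : Lp ℝ 2 μ | ∀ᵐ x ∂μ, 0 ≤ f x} ∧ Convex ℝ {f : Lp ℝ 2 μ | ∀ᵐ x ∂μ, 0 ≤ f x} ∧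
      ∀ ξ : Lp ℝ 2 μ, SP {f : Lp ℝ 2 μ | ∀ᵐ x ∂μ, 0 ≤ f x} ξ ↔ ∀ᵐ x ∂μ, 0 < ξ x

/-- From the uniform estimate to an invariant positive vector. -/
def HBStmt : Prop :=
  ∀ (Γ : Type) [Group Γ] [Countable Γ] (X : Type) [MeasurableSpace X] [MulAction Γ X]
    (μ : Measure X) [IsProbabilityMeasure μ] (K : Koop Γ μ) (h : ℕ → Γ) (ξ : Lp ℝ 2 μ),
    PropT Γ → PropAM h → (∀ᵐ x ∂μ, 0 < ξ x) → PropU K.π ξ h →
    ∃ f : Lp ℝ 2 μ, (∀ᵐ x ∂μ, 0 < f x) ∧ ∀ g, K.π g f = f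

/-! ### Planes and symmetric squares -/

section Shear

variable {A : Type} [AddCommGroup A]

/-- The upper shear of the plane. -/
def U2 (m : ℤ) (v : A × A) : A × A := (v.1 + m • v.2, v.2)

/-- The lower shear of the plane. -/
def L2 (m : ℤ) (v : A × A) : A × A := (v.1, v.2 + m • v.1)

/-- The upper shear of the symmetric square. -/
def U3 (m : ℤ) (v : A × A × A) : A × A × A :=
  (v.1 + (2 * m) • v.2.1 + (m ^ 2) • v.2.2, v.2.1 + m • v.2.2, v.2.2)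

/-- The lower shear of the symmetric square. -/
def L3 (m : ℤ) (v : A × A × A) : A × A × A :=
  (v.1, v.2.1 + m • v.1, v.2.2 + (2 * m) • v.2.1 + (m ^ 2) • v.1)

end Shear

def Plane2Stmt : Prop :=
  ∀ (Γ : Type) [Group Γ] [Countable Γ] (X : Type) [MeasurableSpace X] [MulAction Γ X]
    (μ : Measure X) [IsProbabilityMeasure μ], H83.EC Γ μ →
    ∀ (α : ℤ × ℤ → Γ) (x y : Γ) (m : ℤ), 1 ≤ m → (∀ v w, α (v + w) = α v * α w) →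
      (∀ v, x * α v = α (U2 m v) * x) → (∀ v, y * α v = α (L2 m v) * y) →
      ∃ ν : Measure X, IsFiniteMeasure ν ∧ ν ≪ μ ∧ μ ≪ ν ∧
        ∀ v, ν.map (fun x : X => α v • x) = ν

def Space3Stmt : Prop :=
  ∀ (Γ : Type) [Group Γ] [Countable Γ] (X : Type) [MeasurableSpace X] [MulAction Γ X]
    (μ : Measure X) [IsProbabilityMeasure μ], H83.EC Γ μ →
    ∀ (α : ℤ × ℤ × ℤ → Γ) (x y : Γ) (m : ℤ), 1 ≤ m → (∀ v w, α (v + w) = α v * α w) →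
      (∀ v, x * α v = α (U3 m v) * x) → (∀ v, y * α v = α (L3 m v) * y) →
      ∃ ν : Measure X, IsFiniteMeasure ν ∧ ν ≪ μ ∧ μ ≪ ν ∧
        ∀ v, ν.map (fun x : X => α v • x) = ν

def RelT2Stmt : Prop :=
  ∀ (H : Type) [NormedAddCommGroup H] [InnerProductSpace ℝ H] [CompleteSpace H]
    (ρ : ℝ × ℝ → (H ≃ₗᵢ[ℝ] H)) (x y : H ≃ₗᵢ[ℝ] H) (η : ℕ → H),
    (∀ p q, ρ (p + q) = ρ p * ρ q) → (∀ v, Continuous fun q => ρ q v) →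
    (∀ q, x * ρ q = ρ (U2 1 q) * x) → (∀ q, y * ρ q = ρ (L2 1 q) * y) → (∀ k, ‖η k‖ = 1) →
    (∀ q, Tendsto (fun k => ‖ρ q (η k) - η k‖) atTop (𝓝 0)) →
    Tendsto (fun k => ‖x (η k) - η k‖) atTop (𝓝 0) →
    Tendsto (fun k => ‖y (η k) - η k‖) atTop (𝓝 0) → ∃ v, v ≠ 0 ∧ ∀ q, ρ q v = v

def RelT3Stmt : Prop :=
  ∀ (H : Type) [NormedAddCommGroup H] [InnerProductSpace ℝ H] [CompleteSpace H]
    (ρ : ℝ × ℝ × ℝ → (H ≃ₗᵢ[ℝ] H)) (x y : H ≃ₗᵢ[ℝ] H) (η : ℕ → H),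
    (∀ p q, ρ (p + q) = ρ p * ρ q) → (∀ v, Continuous fun q => ρ q v) →
    (∀ q, x * ρ q = ρ (U3 1 q) * x) → (∀ q, y * ρ q = ρ (L3 1 q) * y) → (∀ k, ‖η k‖ = 1) →
    (∀ q, Tendsto (fun k => ‖ρ q (η k) - η k‖) atTop (𝓝 0)) →
    Tendsto (fun k => ‖x (η k) - η k‖) atTop (𝓝 0) →
    Tendsto (fun k => ‖y (η k) - η k‖) atTop (𝓝 0) → ∃ v, v ≠ 0 ∧ ∀ q, ρ q v = v

/-! ### The Lie group -/

/-- A Lie group with Lie algebra the real form `V` of `L`. -/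
structure LG (L : Type) [LieRing L] [LieAlgebra ℚ L] (V : Type) [NormedAddCommGroup V]
    [NormedSpace ℝ V] (G : Type) [Group G] [TopologicalSpace G] where
  j : L →+ V
  j_smul : ∀ (c : ℚ) x, j (c • x) = (c : ℝ) • j x
  br : V →L[ℝ] V →L[ℝ] V
  ext : Module.End ℚ L →+* (V →L[ℝ] V)
  ext_j : ∀ T x, ext T (j x) = j (T x)
  br_j : ∀ x, br (j x) = ext (ad x)
  span_j : Submodule.span ℝ (Set.range j) = ⊤
  indep : ∀ (k : ℕ) (v : Fin k → L), LinearIndependent ℚ v → LinearIndependent ℝ fun i => j (v i)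
  Ad : G →* (V →L[ℝ] V)
  cont_Ad : Continuous Ad
  Ad_br : ∀ g x y, Ad g (br x y) = br (Ad g x) (Ad g y)
  E : V → G
  cont_E : Continuous E
  Ad_E : ∀ x, Ad (E x) = NormedSpace.exp (br x)
  E_add : ∀ x y, br x y = 0 → E (x + y) = E x * E y
  E_conj : ∀ g x, g * E x * g⁻¹ = E (Ad g x)
  ker_comm : ∀ z g, Ad z = 1 → g * z = z * g
  ker_disc : ∀ᶠ z in 𝓝 (1 : G), Ad z = 1 → z = 1
  chart : ∀ ps : List (V →L[ℝ] V), ps.sum = 1 → ∃ (N : Set G) (c : G → V), IsOpen N ∧ 1 ∈ N ∧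
    ContinuousOn c N ∧ c 1 = 0 ∧ (∀ w ∈ N, (ps.map fun p => E (p (c w))).prod = w) ∧
    ∀ᶠ x in 𝓝 (0 : V), c (ps.map fun p => E (p x)).prod = x
  trotter : ∀ x y, Tendsto (fun k : ℕ => (E ((k : ℝ)⁻¹ • x) * E ((k : ℝ)⁻¹ • y)) ^ k) atTop
    (𝓝 (E (x + y)))

/-- Consequences of the axioms for a connected group with simple Lie algebra. -/
structure LG.Facts {L : Type} [LieRing L] [LieAlgebra ℚ L] {V : Type} [NormedAddCommGroup V]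
    [NormedSpace ℝ V] {G : Type} [Group G] [TopologicalSpace G] (𝒢 : LG L V G) : Prop where
  br_self : ∀ x, 𝒢.br x x = 0
  E_zero : 𝒢.E 0 = 1
  E_smul : ∀ (s t : ℝ) x, 𝒢.E ((s + t) • x) = 𝒢.E (s • x) * 𝒢.E (t • x)
  Ad_nil : ∀ x, Nil x → ∀ t : ℝ, ∀ N, ad x ^ N = 0 → 𝒢.Ad (𝒢.E (t • 𝒢.j x)) =
    ∑ i ∈ Finset.range N, (t ^ i / i.factorial) • 𝒢.ext (ad x ^ i)
  Ad_ex : ∀ x, Nil x → 𝒢.Ad (𝒢.E (𝒢.j x)) = 𝒢.ext (ex x)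
  Ad_eig : ∀ s d, ∀ x ∈ eig s d, ∀ t : ℝ,
    𝒢.Ad (𝒢.E (t • 𝒢.j s)) (𝒢.j x) = Real.exp (t * d) • 𝒢.j x
  stable : ∀ (W : Submodule ℝ V) (x : V), (∀ t : ℝ, ∀ w ∈ W, 𝒢.Ad (𝒢.E (t • x)) w ∈ W) →
    ∀ w ∈ W, 𝒢.br x w ∈ W
  stable' : ∀ (W : Submodule ℝ V) (x : V), (∀ w ∈ W, 𝒢.br x w ∈ W) →
    ∀ w ∈ W, 𝒢.Ad (𝒢.E x) w ∈ W
  sub : ∀ S : Subgroup G, IsClosed (S : Set G) → ∃ f : Submodule ℝ V,
    (∀ x, x ∈ f ↔ ∀ t : ℝ, 𝒢.E (t • x) ∈ S) ∧ ∀ x ∈ f, ∀ y ∈ f, 𝒢.br x y ∈ f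
  gen : ∀ (S : Subgroup G) (Z : Set L), (∀ z ∈ Z, ∀ t : ℝ, 𝒢.E (t • 𝒢.j z) ∈ S) →
    LieSubalgebra.lieSpan ℚ L Z = ⊤ → S = ⊤
  orbit : ∀ x : L, x ≠ 0 → Submodule.span ℝ (Set.range fun g => 𝒢.Ad g (𝒢.j x)) = ⊤
  unip : ∀ σ, Diag σ → ∀ l : List L, (∀ x ∈ l, x ∈ pos σ) → (l.map ex).prod = 1 →
    (l.map fun x => 𝒢.E (𝒢.j x)).prod = 1

def LG0Stmt : Prop :=
  ∀ (n : ℕ) (L : Type) [LieRing L] [LieAlgebra ℚ L] [LieAlgebra.IsSimple ℚ L]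
    (b : Module.Basis (Fin n) ℚ L) (G : Type) [Group G] [TopologicalSpace G]
    [IsTopologicalGroup G] [ConnectedSpace G] (Ad : G →* Aut b), IsCoveringMap Ad →
    ∃ 𝒢 : LG L (Fin n → ℝ) G, (∀ x i, 𝒢.j x i = (b.repr x i : ℚ)) ∧
      ∀ g x, 𝒢.Ad g x = (Ad g).1.1 *ᵥ x

def FactsStmt : Prop :=
  ∀ (L : Type) [LieRing L] [LieAlgebra ℚ L] [Module.Finite ℚ L] [LieAlgebra.IsSimple ℚ L]
    (V : Type) [NormedAddCommGroup V] [NormedSpace ℝ V] [FiniteDimensional ℝ V]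
    (G : Type) [Group G] [TopologicalSpace G] [IsTopologicalGroup G] [ConnectedSpace G]
    [T2Space G] (𝒢 : LG L V G), 𝒢.Facts

/-- A lattice, given by the cocycle of a strict fundamental domain. -/
structure Lat {G : Type} [Group G] [MeasurableSpace G] (m : Measure G) (Γ : Subgroup G) where
  c : G → Γ
  meas : ∀ γ, MeasurableSet {y | c y = γ}
  c_mul : ∀ (γ : Γ) (y : G), c (γ * y) = γ * c y
  fin : m {y | c y = 1} ≠ ∞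

def LatStmt : Prop :=
  ∀ (G : Type) [Group G] [TopologicalSpace G] [IsTopologicalGroup G] [T2Space G]
    [LocallyCompactSpace G] [SecondCountableTopology G] [MeasurableSpace G] [BorelSpace G]
    (m : Measure G) [m.IsHaarMeasure] (Γ Γ₀ : Subgroup G) [DiscreteTopology Γ] (D : Set G),
    IsFundamentalDomain Γ D m → m D ≠ ∞ → Γ₀ ≤ Γ → Γ₀.relIndex Γ ≠ 0 →
    Countable Γ₀ ∧ Nonempty (Lat m Γ₀) ∧
      ∀ Γ₁ : Subgroup G, DiscreteTopology Γ₁ → Γ₀ ≤ Γ₁ → Γ₀.relIndex Γ₁ ≠ 0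

def AGStmt : Prop :=
  ∀ (n : ℕ) (L : Type) [LieRing L] [LieAlgebra ℚ L] (b : Module.Basis (Fin n) ℚ L)
    (G : Type) [Group G] [TopologicalSpace G] [IsTopologicalGroup G] (Ad : G →* Aut b)
    (𝒢 : LG L (Fin n → ℝ) G), 𝒢.Facts → (∀ x i, 𝒢.j x i = (b.repr x i : ℚ)) →
    (∀ g x, 𝒢.Ad g x = (Ad g).1.1 *ᵥ x) →
    DiscreteTopology ((AutZ b).comap Ad) ∧
      ∀ Γ₀ : Subgroup G, Γ₀ ≤ (AutZ b).comap Ad → Γ₀.relIndex ((AutZ b).comap Ad) ≠ 0 →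
        ∃ A : AG L Γ₀, ∀ x ∈ lat A.b, Nil x → (A.E x : G) = 𝒢.E (𝒢.j x)

/-- The induced representation. -/
def IndStmt : Prop :=
  ∀ (G : Type) [Group G] [TopologicalSpace G] [IsTopologicalGroup G] [T2Space G]
    [LocallyCompactSpace G] [SecondCountableTopology G] [MeasurableSpace G] [BorelSpace G]
    (m : Measure G) [m.IsHaarMeasure] [m.IsMulRightInvariant] (Γ : Subgroup G) [Countable Γ]
    (Λ : Lat m Γ) (H : Type) [NormedAddCommGroup H] [InnerProductSpace ℝ H] [CompleteSpace H]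
    (π : Γ →* (H ≃ₗᵢ[ℝ] H)),
    ∃ ρ : G →* (Lp H 2 (m.restrict {y | Λ.c y = 1}) ≃ₗᵢ[ℝ] Lp H 2 (m.restrict {y | Λ.c y = 1})),
      (∀ η, Continuous fun g => ρ g η) ∧
      (∀ g η, ∀ᵐ y ∂m.restrict {y | Λ.c y = 1},
        ρ g η y = π (Λ.c (y * g)) (η (((Λ.c (y * g))⁻¹ : Γ) * (y * g)))) ∧
      ∀ η, (∀ g, ρ g η = η) → ∃ v, (∀ γ, π γ v = v) ∧
        ∀ᵐ y ∂m.restrict {y | Λ.c y = 1}, η y = v

def UnimodStmt : Prop :=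
  ∀ (L : Type) [LieRing L] [LieAlgebra ℚ L] [Module.Finite ℚ L] [LieAlgebra.IsSimple ℚ L]
    (V : Type) [NormedAddCommGroup V] [NormedSpace ℝ V]
    (G : Type) [Group G] [TopologicalSpace G] [IsTopologicalGroup G] [T2Space G]
    [LocallyCompactSpace G] [SecondCountableTopology G] [MeasurableSpace G] [BorelSpace G]
    (m : Measure G) [m.IsHaarMeasure] (𝒢 : LG L V G), 𝒢.Facts → ∀ s : L, Diag s → s ≠ 0 →
    m.IsMulRightInvariant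

/-- The Mautner phenomenon. -/
def MautnerStmt : Prop :=
  ∀ (L : Type) [LieRing L] [LieAlgebra ℚ L] [Module.Finite ℚ L] [LieAlgebra.IsSimple ℚ L]
    (V : Type) [NormedAddCommGroup V] [NormedSpace ℝ V] [FiniteDimensional ℝ V]
    (G : Type) [Group G] [TopologicalSpace G] [IsTopologicalGroup G] (𝒢 : LG L V G), 𝒢.Facts →
    ∀ (H : Type) [NormedAddCommGroup H] [InnerProductSpace ℝ H] (ρ : G →* (H ≃ₗᵢ[ℝ] H)),
      (∀ η, Continuous fun g => ρ g η) → ∀ η : H,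
      (∀ s : L, Diag s → s ≠ 0 → ρ (𝒢.E (𝒢.j s)) η = η → ∀ g, ρ g η = η) ∧
      ∀ X Y v w : L, Diag ⁅X, Y⁆ → ⁅X, Y⁆ ≠ 0 → (∃ Z, ⁅v, Z⁆ = X) → ⁅X, v⁆ = 0 →
        (∃ Z, ⁅w, Z⁆ = Y) → ⁅Y, w⁆ = 0 → (∀ t : ℝ, ρ (𝒢.E (t • 𝒢.j v)) η = η) →
        (∀ t : ℝ, ρ (𝒢.E (t • 𝒢.j w)) η = η) → ∀ g, ρ g η = η

/-- The mean ergodic theorem on the homogeneous space. -/
def Erg {G : Type} [Group G] [MeasurableSpace G] {m : Measure G} {Γ : Subgroup G} (Λ : Lat m Γ)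
    (a : G) : Prop :=
  ∀ χ : G → ℝ, Measurable χ → (∀ y, |χ y| ≤ 1) → (∀ (γ : Γ) y, χ (γ * y) = χ y) →
    ∀ ψ : G → ℝ, Integrable ψ m → ∀ g : G,
      Tendsto (fun T : ℕ => ∫ y, |ψ y| * |(T : ℝ)⁻¹ * ∑ k ∈ Finset.range T, χ (y * a ^ k * g) -
        (m.real {y | Λ.c y = 1})⁻¹ * ∫ z in {y | Λ.c y = 1}, χ z ∂m| ∂m) atTop (𝓝 0)

/-- Ergodicity of split elements and property (T) of the lattice. -/
def ErgTStmt : Prop :=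
  ∀ (L : Type) [LieRing L] [LieAlgebra ℚ L] [Module.Finite ℚ L] [LieAlgebra.IsSimple ℚ L]
    (V : Type) [NormedAddCommGroup V] [NormedSpace ℝ V] [FiniteDimensional ℝ V]
    (G : Type) [Group G] [TopologicalSpace G] [IsTopologicalGroup G] [T2Space G]
    [LocallyCompactSpace G] [SecondCountableTopology G] [MeasurableSpace G] [BorelSpace G]
    (m : Measure G) [m.IsHaarMeasure] [m.IsMulRightInvariant] (Γ : Subgroup G) [Countable Γ]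
    (Λ : Lat m Γ) (𝒢 : LG L V G), 𝒢.Facts →
    (∀ s : L, Diag s → s ≠ 0 → Erg Λ (𝒢.E (𝒢.j s))) ∧ ∀ v₀ : L, Conf v₀ → PropT Γ

section Trans

variable {G : Type} [Group G] [MeasurableSpace G] [MeasurableMul G] (m : Measure G)

/-- Left translation `ψ (g⁻¹ * y)` on integrable functions. -/
noncomputable def lt [m.IsMulLeftInvariant] (g : G) : Lp ℝ 1 m →ₗᵢ[ℝ] Lp ℝ 1 m :=
  Lp.compMeasurePreservingₗᵢ ℝ (fun y => g⁻¹ * y) (measurePreserving_mul_left m g⁻¹)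

/-- Right translation `ψ (y * g⁻¹)` on integrable functions. -/
noncomputable def rt [m.IsMulRightInvariant] (g : G) : Lp ℝ 1 m →ₗᵢ[ℝ] Lp ℝ 1 m :=
  Lp.compMeasurePreservingₗᵢ ℝ (fun y => y * g⁻¹) (measurePreserving_mul_right m g⁻¹)

end Trans

/-- Translations and convolutions of integrable functions. -/
structure Conv {G : Type} [Group G] [TopologicalSpace G] [MeasurableSpace G] [MeasurableMul G]
    (m : Measure G) [m.IsMulLeftInvariant] [m.IsMulRightInvariant] : Prop where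
  lt_one : ∀ ψ, lt m 1 ψ = ψ
  rt_one : ∀ ψ, rt m 1 ψ = ψ
  lt_mul : ∀ g h ψ, lt m (g * h) ψ = lt m g (lt m h ψ)
  rt_mul : ∀ g h ψ, rt m (g * h) ψ = rt m h (rt m g ψ)
  lt_rt : ∀ g h ψ, lt m g (rt m h ψ) = rt m h (lt m g ψ)
  cont_lt : ∀ ψ, Continuous fun g => lt m g ψ
  cont_rt : ∀ ψ, Continuous fun g => rt m g ψ
  conv : ∀ (Φ : Lp ℝ 1 m →L[ℝ] ℝ) (ψ ρ : Lp ℝ 1 m),
    ∫ y, ψ y * Φ (lt m y ρ) ∂m = ∫ w, ρ w * Φ (rt m w ψ) ∂m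
  const : ∀ Φ : Lp ℝ 1 m →L[ℝ] ℝ, (∀ g ψ, Φ (rt m g ψ) = Φ ψ) → ∀ g ψ, Φ (lt m g ψ) = Φ ψ

def ConvStmt : Prop :=
  ∀ (G : Type) [Group G] [TopologicalSpace G] [IsTopologicalGroup G] [T2Space G]
    [LocallyCompactSpace G] [SecondCountableTopology G] [MeasurableSpace G] [BorelSpace G]
    (m : Measure G) [m.IsHaarMeasure] [m.IsMulRightInvariant], Conv m

/-- The lemma of Margulis. -/
def MLStmt : Prop :=
  ∀ (L : Type) [LieRing L] [LieAlgebra ℚ L] [Module.Finite ℚ L]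
    (V : Type) [NormedAddCommGroup V] [NormedSpace ℝ V] [FiniteDimensional ℝ V]
    (G : Type) [Group G] [TopologicalSpace G] [IsTopologicalGroup G] [T2Space G]
    [LocallyCompactSpace G] [SecondCountableTopology G] [MeasurableSpace G] [BorelSpace G]
    (m : Measure G) [m.IsHaarMeasure] [m.IsMulRightInvariant] (Γ : Subgroup G) [Countable Γ]
    (Λ : Lat m Γ) (𝒢 : LG L V G), 𝒢.Facts → Conv m →
    ∀ (σ s X₀ : L) (d : ℚ) (h : ℕ → Γ) (Φ : Lp ℝ 1 m →L[ℝ] ℝ), Diag σ → Erg Λ (𝒢.E (𝒢.j σ)) →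
      X₀ ∈ eig s d → d ≠ 0 → X₀ ≠ 0 → (∀ Q, (h Q : G) = 𝒢.E ((Q : ℝ) • 𝒢.j X₀)) →
      (∀ ε : ℝ, 0 < ε → ∃ Q : ℕ, 0 < Q ∧ ∀ (a : Γ) ψ,
        |Φ (lt m (a * h Q * a⁻¹ : Γ) ψ) - Φ ψ| ≤ ε * ‖ψ‖) →
      (∀ ψ, Φ (rt m (𝒢.E (𝒢.j σ)) ψ) = Φ ψ) →
      (∀ x ∈ pos σ, ∀ (t : ℝ) ψ, Φ (rt m (𝒢.E (t • 𝒢.j x)) ψ) = Φ ψ) →
      ∀ z ∈ eig σ 0, ∀ (t : ℝ) ψ, Φ (rt m (𝒢.E (t • 𝒢.j z)) ψ) = Φ ψ

/-- The amenability half of the argument. -/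
def AMStmt : Prop :=
  ∀ (L : Type) [LieRing L] [LieAlgebra ℚ L] [Module.Finite ℚ L]
    (V : Type) [NormedAddCommGroup V] [NormedSpace ℝ V] [FiniteDimensional ℝ V]
    (G : Type) [Group G] [TopologicalSpace G] [IsTopologicalGroup G] [T2Space G]
    [LocallyCompactSpace G] [SecondCountableTopology G] [MeasurableSpace G] [BorelSpace G]
    (m : Measure G) [m.IsHaarMeasure] [m.IsMulRightInvariant] (Γ : Subgroup G) [Countable Γ]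
    (Λ : Lat m Γ) (𝒢 : LG L V G), 𝒢.Facts →
    ∀ (s₁ s₂ X₀ : L) (d : ℚ) (l : List L) (h : ℕ → Γ), Diag s₁ → Diag s₂ → ⁅s₁, s₂⁆ = 0 →
      Erg Λ (𝒢.E (𝒢.j s₁)) → Erg Λ (𝒢.E (𝒢.j s₂)) → Flag l → pos s₁ ≤ sp l → pos s₂ ≤ sp l →
      (∀ y ∈ sp l, ⁅s₁, y⁆ ∈ sp l ∧ ⁅s₂, y⁆ ∈ sp l) →
      LieSubalgebra.lieSpan ℚ L (par s₁ ∪ par s₂) = ⊤ →
      X₀ ∈ eig s₂ d → d ≠ 0 → X₀ ≠ 0 → (∀ Q, (h Q : G) = 𝒢.E ((Q : ℝ) • 𝒢.j X₀)) → PropAM h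

/-- The final theorem. -/
def FinalStmt : Prop :=
  ∀ (n : ℕ) (L : Type) [LieRing L] [LieAlgebra ℚ L] [LieAlgebra.IsSimple ℚ L]
    (b : Module.Basis (Fin n) ℚ L) (s₁ s₂ : L), LinearIndependent ℚ ![s₁, s₂] → ⁅s₁, s₂⁆ = 0 →
    Diag s₁ → Diag s₂ →
    ∀ (G : Type) [Group G] [TopologicalSpace G] [IsTopologicalGroup G] [ConnectedSpace G]
      [T2Space G] [LocallyCompactSpace G] [SecondCountableTopology G] [MeasurableSpace G]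
      [BorelSpace G] (Ad : G →* Aut b), IsCoveringMap Ad →
      ∀ (Γ : Subgroup G) [DiscreteTopology Γ] (m : Measure G) [m.IsHaarMeasure] (D : Set G),
        IsFundamentalDomain Γ D m → m D ≠ ∞ → (Γ.map Ad).Commensurable (AutZ b) →
        ∀ (X : Type) [MeasurableSpace X] [MulAction Γ X] (μ : Measure X)
          [IsProbabilityMeasure μ], H83.EC Γ μ →
          ∃ ν : Measure X, IsProbabilityMeasure ν ∧ ν ≪ μ ∧ μ ≪ ν ∧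
            ∀ γ : Γ, ν.map (fun x : X => γ • x) = ν

end Pool.Agent.MP_2b113a_an.H33
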