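import Mathlib
import Pool.Agent.MP_2b113a_an.H33.Defs

/-!
Basic facts on eigenspaces, gradings, exponentials and automorphisms.
-/

namespace Pool.Agent.MP_2b113a_an.H33

open Polynomial Finset

variable {L : Type} [LieRing L] [LieAlgebra ℚ L]

/-! ### Eigenspaces -/

@[simp] theorem ad_apply (x y : L) : ad x y = ⁅x, y⁆ := LieAlgebra.ad_apply ℚ L x y

theorem ad_add (x y : L) : ad (x + y) = ad x + ad y := map_add _ _ _

theorem ad_smul (c : ℚ) (x : L) : ad (c • x) = c • ad x := map_smul _ _ _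

theorem ad_neg (x : L) : ad (-x) = -ad x := map_neg _ _

theorem ad_zero : ad (0 : L) = 0 := map_zero _

theorem ad_lie (x y : L) : ad ⁅x, y⁆ = ad x * ad y - ad y * ad x := by
  ext z
  simp

theorem commute_ad {x y : L} (h : ⁅x, y⁆ = 0) : Commute (ad x) (ad y) := by
  have := ad_lie x y
  rw [h, ad_zero] at this
  exact sub_eq_zero.1 this.symm

theorem mem_eig {s x : L} {c : ℚ} : x ∈ eig s c ↔ ⁅s, x⁆ = c • x := by
  simp [eig]

theorem lie_mem_eig {s x y : L} {c d : ℚ} (hx : x ∈ eig s c) (hy : y ∈ eig s d) :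
    ⁅x, y⁆ ∈ eig s (c + d) := by
  rw [mem_eig] at *
  rw [leibniz_lie, hx, hy, smul_lie, lie_smul, add_smul]

theorem eig_neg (s : L) (c : ℚ) : eig (-s) c = eig s (-c) := by
  ext x
  simp only [mem_eig, neg_lie, neg_smul, neg_eq_iff_eq_neg]

theorem eig_smul {t : ℚ} (ht : t ≠ 0) (s : L) (c : ℚ) : eig (t • s) (t * c) = eig s c := by
  ext x
  simp only [mem_eig, smul_lie, mul_smul]
  exact (smul_right_injective L ht).eq_iff

theorem mem_eig_smul {s x : L} {c : ℚ} (t : ℚ) (h : x ∈ eig s c) : x ∈ eig (t • s) (t * c) := by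
  rw [mem_eig] at *
  rw [smul_lie, h, mul_smul]

theorem mem_eig_add {s t x : L} {c d : ℚ} (h : x ∈ eig s c) (h' : x ∈ eig t d) :
    x ∈ eig (s + t) (c + d) := by
  rw [mem_eig] at *
  rw [add_lie, h, h', add_smul]

theorem mem_eig_zero {s x : L} : x ∈ eig s 0 ↔ ⁅s, x⁆ = 0 := by rw [mem_eig, zero_smul]

theorem eq_zero_of_mem_eig {s x : L} {c d : ℚ} (h : x ∈ eig s c) (h' : x ∈ eig s d)
    (hcd : c ≠ d) : x = 0 := by
  rw [mem_eig] at h h'
  have : (c - d) • x = 0 := by rw [sub_smul, ← h, ← h', sub_self]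
  exact (smul_eq_zero.1 this).resolve_left (sub_ne_zero.2 hcd)

theorem aeval_of_mem_eig {s x : L} {c : ℚ} (h : x ∈ eig s c) (p : ℚ[X]) :
    aeval (ad s) p x = p.eval c • x := by
  by_cases hx : x = 0
  · simp [hx]
  exact Module.End.aeval_apply_of_hasEigenvector ⟨h, hx⟩

theorem Diag.eq_top {s : L} (hs : Diag s) {W : Submodule ℚ L} (h : ∀ c, eig s c ≤ W) : W = ⊤ :=
  top_le_iff.1 (hs ▸ iSup_le h)

theorem Diag.ext {s : L} (hs : Diag s) {M : Type} [AddCommGroup M] [Module ℚ M]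
    {f g : L →ₗ[ℚ] M} (h : ∀ c, ∀ x ∈ eig s c, f x = g x) : f = g := by
  have : LinearMap.eqLocus f g = ⊤ := hs.eq_top fun c x hx => h c x hx
  exact LinearMap.eqLocus_eq_top.1 this

theorem diag_zero : Diag (0 : L) := by
  refine top_le_iff.1 (le_trans ?_ (le_iSup _ 0))
  intro x _
  simp [mem_eig]

theorem Diag.smul {s : L} (hs : Diag s) (t : ℚ) : Diag (t • s) :=
  hs.eq_top fun c _ hx => Submodule.mem_iSup_of_mem (t * c) (mem_eig_smul t hx)

theorem Diag.neg {s : L} (hs : Diag s) : Diag (-s) := by simpa using hs.smul (-1)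

/-! ### Sums of eigenspaces -/

/-- The sum of the eigenspaces whose eigenvalue satisfies `p`. -/
def fil (s : L) (p : ℚ → Prop) : Submodule ℚ L := ⨆ c : ℚ, ⨆ _ : p c, eig s c

theorem pos_eq (s : L) : pos s = fil s (0 < ·) := rfl

theorem par_eq (s : L) : par s = fil s (0 ≤ ·) := rfl

theorem eig_le_fil {s : L} {p : ℚ → Prop} {c : ℚ} (h : p c) : eig s c ≤ fil s p :=
  le_iSup₂_of_le (f := fun c (_ : p c) => eig s c) c h le_rfl

theorem fil_le {s : L} {p : ℚ → Prop} {W : Submodule ℚ L} (h : ∀ c, p c → eig s c ≤ W) :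
    fil s p ≤ W := iSup₂_le h

theorem fil_mono {s : L} {p q : ℚ → Prop} (h : ∀ c, p c → q c) : fil s p ≤ fil s q :=
  fil_le fun c hc => eig_le_fil (h c hc)

theorem fil_eq (s : L) (d : ℚ) : fil s (· = d) = eig s d :=
  le_antisymm (fil_le fun _ hc => hc ▸ le_rfl) (eig_le_fil rfl)

theorem mem_fil_eq {s x : L} {d : ℚ} (h : x ∈ eig s d) : x ∈ fil s (· = d) :=
  (fil_eq s d).ge h

theorem Diag.fil_true {s : L} (hs : Diag s) {p : ℚ → Prop} (h : ∀ c, eig s c ≠ ⊥ → p c) :
    fil s p = ⊤ :=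
  hs.eq_top fun c => by
    by_cases hc : eig s c = ⊥
    · simp [hc]
    · exact eig_le_fil (h c hc)

theorem fil_false {s : L} {p : ℚ → Prop} (h : ∀ c, p c → eig s c = ⊥) : fil s p = ⊥ :=
  le_bot_iff.1 (fil_le fun c hc => (h c hc).le)

theorem fil_neg (s : L) (p : ℚ → Prop) : fil (-s) p = fil s fun c => p (-c) := by
  apply le_antisymm
  · exact fil_le fun c hc => by rw [eig_neg]; exact eig_le_fil (by simpa using hc)
  · exact fil_le fun c hc => by
      rw [← neg_neg c, ← eig_neg]; exact eig_le_fil hc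

theorem mem_pos {s x : L} {c : ℚ} (hc : 0 < c) (h : x ∈ eig s c) : x ∈ pos s :=
  eig_le_fil (p := (0 < ·)) hc h

theorem mem_par {s x : L} {c : ℚ} (hc : 0 ≤ c) (h : x ∈ eig s c) : x ∈ par s :=
  eig_le_fil (p := (0 ≤ ·)) hc h

theorem pos_le_par (s : L) : pos s ≤ par s := fil_mono fun _ h => le_of_lt h

theorem par_eq_sup (s : L) : par s = eig s 0 ⊔ pos s := by
  apply le_antisymm
  · refine fil_le fun c hc => ?_
    rcases eq_or_lt_of_le hc with h | h
    · exact h ▸ le_sup_left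
    · exact le_sup_of_le_right (eig_le_fil (p := (0 < ·)) h)
  · exact sup_le (eig_le_fil (p := (0 ≤ ·)) le_rfl) (pos_le_par s)

theorem self_mem_par (s : L) : s ∈ par s := mem_par le_rfl (mem_eig_zero.2 (lie_self s))

theorem lie_mem_fil {s x y : L} {p q r : ℚ → Prop} (h : ∀ c d, p c → q d → r (c + d))
    (hx : x ∈ fil s p) (hy : y ∈ fil s q) : ⁅x, y⁆ ∈ fil s r := by
  have key : fil s p ≤ (fil s r).comap (ad y) := fil_le fun c hc x hx => by
    have : fil s q ≤ (fil s r).comap (ad x) := fil_le fun d hd y hy =>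
      eig_le_fil (h c d hc hd) (lie_mem_eig hx hy)
    have h2 : ⁅x, y⁆ ∈ fil s r := this hy
    show ⁅y, x⁆ ∈ fil s r
    rw [← lie_skew]
    exact neg_mem h2
  have h2 : ⁅y, x⁆ ∈ fil s r := key hx
  rw [← lie_skew]
  exact neg_mem h2

theorem lie_mem_pos {s x y : L} (hx : x ∈ pos s) (hy : y ∈ pos s) : ⁅x, y⁆ ∈ pos s :=
  lie_mem_fil (fun _ _ h h' => add_pos h h') hx hy

theorem lie_mem_par {s x y : L} (hx : x ∈ par s) (hy : y ∈ par s) : ⁅x, y⁆ ∈ par s :=
  lie_mem_fil (fun _ _ h h' => add_nonneg h h') hx hy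

theorem lie_par_pos {s x y : L} (hx : x ∈ par s) (hy : y ∈ pos s) : ⁅x, y⁆ ∈ pos s :=
  lie_mem_fil (fun _ _ h h' => add_pos_of_nonneg_of_pos h h') hx hy

theorem lie_pos_par {s x y : L} (hx : x ∈ pos s) (hy : y ∈ par s) : ⁅x, y⁆ ∈ pos s :=
  lie_mem_fil (fun _ _ h h' => add_pos_of_pos_of_nonneg h h') hx hy

theorem lie_fil_of_comm {s t y : L} {p : ℚ → Prop} (h : ⁅s, t⁆ = 0) (hy : y ∈ fil s p) :
    ⁅t, y⁆ ∈ fil s p :=
  lie_mem_fil (p := (· = 0)) (q := p) (r := p) (fun c d (h : c = 0) h' => by rwa [h, zero_add])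
    (eig_le_fil (p := (· = 0)) rfl (mem_eig_zero.2 h)) hy

theorem fil_smul_pos {t : ℚ} (ht : 0 < t) (s : L) :
    pos (t • s) = pos s ∧ par (t • s) = par s := by
  have e : ∀ c, eig (t • s) c = eig s (c / t) := fun c => by
    rw [← eig_smul ht.ne' s, mul_div_cancel₀ _ ht.ne']
  refine ⟨le_antisymm (fil_le fun c hc => ?_) (fil_le fun c hc => ?_),
    le_antisymm (fil_le fun c hc => ?_) (fil_le fun c hc => ?_)⟩
  · rw [e]; exact eig_le_fil (p := (0 < ·)) (div_pos hc ht)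
  · rw [← eig_smul ht.ne']; exact eig_le_fil (p := (0 < ·)) (mul_pos ht hc)
  · rw [e]; exact eig_le_fil (p := (0 ≤ ·)) (div_nonneg hc ht.le)
  · rw [← eig_smul ht.ne']; exact eig_le_fil (p := (0 ≤ ·)) (mul_nonneg ht.le hc)

/-- The adjoint map of `s` is onto on each sum of nonzero eigenspaces. -/
theorem exists_lie_eq {s y : L} {p : ℚ → Prop} (hp : ¬p 0) (hy : y ∈ fil s p) :
    ∃ z ∈ fil s p, ⁅s, z⁆ = y := by
  have : fil s p ≤ (fil s p).map (ad s) := fil_le fun c hc x hx => by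
    have hc0 : c ≠ 0 := fun h => hp (h ▸ hc)
    refine ⟨c⁻¹ • x, Submodule.smul_mem _ _ (eig_le_fil hc hx), ?_⟩
    rw [ad_apply, lie_smul, mem_eig.1 hx, smul_smul, inv_mul_cancel₀ hc0, one_smul]
  exact this hy

/-! ### Projections -/

section Fin

variable [Module.Finite ℚ L]

theorem finite_eig (s : L) : {c | eig s c ≠ ⊥}.Finite :=
  WellFoundedGT.finite_ne_bot_of_iSupIndep (Module.End.eigenspaces_iSupIndep (ad s))

/-- The eigenvalues. -/
noncomputable def spec (s : L) : Finset ℚ := (finite_eig s).toFinset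

theorem mem_spec {s : L} {c : ℚ} : c ∈ spec s ↔ eig s c ≠ ⊥ := by simp [spec]

open Classical in
/-- The projection on an eigenspace. -/
noncomputable def prj (s : L) (c : ℚ) : Module.End ℚ L :=
  if c ∈ spec s then aeval (ad s) (Lagrange.basis (spec s) id c) else 0

theorem prj_of_mem {s x : L} {c d : ℚ} (h : x ∈ eig s d) :
    prj s c x = if c = d then x else 0 := by
  by_cases hx : x = 0
  · simp [hx]
  have hd : d ∈ spec s := mem_spec.2 fun h0 => hx (by simpa [h0] using h)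
  unfold prj
  split_ifs with h1 h2 h2
  · subst h2
    rw [aeval_of_mem_eig h]
    have := Lagrange.eval_basis_self (s := spec s) (v := id) (Function.injective_id.injOn) hd
    simp only [id] at this
    rw [this, one_smul]
  · rw [aeval_of_mem_eig h]
    have := Lagrange.eval_basis_of_ne (s := spec s) (v := id) h2 hd
    simp only [id] at this
    rw [this, zero_smul]
  · exact absurd (h2 ▸ hd) h1
  · rfl

theorem prj_self {s x : L} {c : ℚ} (h : x ∈ eig s c) : prj s c x = x := by simp [prj_of_mem h]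

theorem prj_ne {s x : L} {c d : ℚ} (h : x ∈ eig s d) (hcd : c ≠ d) : prj s c x = 0 := by
  simp [prj_of_mem h, hcd]

theorem prj_eq_aeval (s : L) (c : ℚ) : ∃ p : ℚ[X], prj s c = aeval (ad s) p := by
  unfold prj
  split_ifs
  · exact ⟨_, rfl⟩
  · exact ⟨0, by simp⟩

theorem prj_mem_of_stable {s x : L} {W : Submodule ℚ L} (hW : ∀ y ∈ W, ⁅s, y⁆ ∈ W) (hx : x ∈ W)
    (c : ℚ) : prj s c x ∈ W := by
  obtain ⟨p, hp⟩ := prj_eq_aeval s c
  rw [hp]
  exact aeval_apply_smul_mem_of_le_comap hx p (ad s) fun y hy => hW y hy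

theorem Diag.prj_mem {s : L} (hs : Diag s) (c : ℚ) (x : L) : prj s c x ∈ eig s c := by
  have : (eig s c).comap (prj s c) = ⊤ := hs.eq_top fun d y hy => by
    rw [Submodule.mem_comap, prj_of_mem hy]
    split_ifs with h
    · exact h ▸ hy
    · exact zero_mem _
  exact (this ▸ Submodule.mem_top : x ∈ (eig s c).comap (prj s c))

theorem Diag.sum_prj {s : L} (hs : Diag s) : ∑ c ∈ spec s, prj s c = 1 := by
  refine hs.ext fun d x hx => ?_
  by_cases h0 : x = 0
  · simp [h0]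
  have hd : d ∈ spec s := mem_spec.2 fun h => h0 (by simpa [h] using hx)
  simp [LinearMap.sum_apply, prj_of_mem hx, hd]

theorem Diag.sum_prj_apply {s : L} (hs : Diag s) (x : L) : ∑ c ∈ spec s, prj s c x = x := by
  have := LinearMap.congr_fun hs.sum_prj x
  simpa [LinearMap.sum_apply] using this

theorem prj_eq_zero_of_mem_fil {s x : L} {p : ℚ → Prop} (hx : x ∈ fil s p) {c : ℚ} (hc : ¬p c) :
    prj s c x = 0 := by
  have : fil s p ≤ LinearMap.ker (prj s c) := fil_le fun d hd y hy =>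
    prj_ne hy fun h => hc (h ▸ hd)
  exact this hx

theorem Diag.mem_fil {s x : L} (hs : Diag s) {p : ℚ → Prop} :
    x ∈ fil s p ↔ ∀ c, ¬p c → prj s c x = 0 := by
  refine ⟨fun h c hc => prj_eq_zero_of_mem_fil h hc, fun h => ?_⟩
  rw [← hs.sum_prj_apply x]
  refine Submodule.sum_mem _ fun c _ => ?_
  by_cases hc : p c
  · exact eig_le_fil hc (hs.prj_mem c x)
  · rw [h c hc]; exact zero_mem _

/-- Membership in a submodule can be tested on the homogeneous components. -/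
theorem Diag.mem_of_prj {s x : L} (hs : Diag s) {W : Submodule ℚ L} (h : ∀ c, prj s c x ∈ W) :
    x ∈ W := by
  rw [← hs.sum_prj_apply x]
  exact Submodule.sum_mem _ fun c _ => h c

/-- A stable submodule is spanned by its homogeneous elements. -/
theorem Diag.le_of_stable {s : L} (hs : Diag s) {W W' : Submodule ℚ L}
    (hW : ∀ y ∈ W, ⁅s, y⁆ ∈ W) (h : ∀ c, ∀ x ∈ W, x ∈ eig s c → x ∈ W') : W ≤ W' :=
  fun x hx => hs.mem_of_prj fun c => h c _ (prj_mem_of_stable hW hx c) (hs.prj_mem c x)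

theorem Diag.mem_fil_inf {s x : L} (hs : Diag s) {p q : ℚ → Prop} (hp : x ∈ fil s p)
    (hq : x ∈ fil s q) : x ∈ fil s fun c => p c ∧ q c :=
  hs.mem_fil.2 fun c hc => by
    by_cases h : p c
    · exact prj_eq_zero_of_mem_fil hq fun h' => hc ⟨h, h'⟩
    · exact prj_eq_zero_of_mem_fil hp h

theorem Diag.isCompl_fil {s : L} (hs : Diag s) (p : ℚ → Prop) :
    IsCompl (fil s p) (fil s fun c => ¬p c) := by
  refine ⟨Submodule.disjoint_def.2 fun x h h' => ?_, codisjoint_iff.2 (hs.eq_top fun c => ?_)⟩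
  · have := hs.mem_fil_inf h h'
    rwa [fil_false (fun c hc => absurd hc.1 hc.2), Submodule.mem_bot] at this
  · by_cases h : p c
    · exact le_sup_of_le_left (eig_le_fil h)
    · exact le_sup_of_le_right (eig_le_fil h)

theorem Diag.isCompl_pos {s : L} (hs : Diag s) : IsCompl (pos s) (par (-s)) := by
  have := hs.isCompl_fil (0 < ·)
  rw [par_eq, fil_neg]
  simpa [pos_eq] using this

theorem Diag.prj_comm {s : L} (hs : Diag s) {f : Module.End ℚ L} {e : ℚ}
    (hf : ∀ c, ∀ x ∈ eig s c, f x ∈ eig s (c + e)) (c : ℚ) (x : L) :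
    prj s (c + e) (f x) = f (prj s c x) := by
  have : prj s (c + e) * f = f * prj s c := hs.ext fun d y hy => by
    rw [Module.End.mul_apply, Module.End.mul_apply, prj_of_mem hy, prj_of_mem (hf d y hy)]
    by_cases h : c = d <;> simp [h]
  exact LinearMap.congr_fun this x

theorem Diag.prj_lie {s x : L} {e : ℚ} (hs : Diag s) (hx : x ∈ eig s e) (c : ℚ) (y : L) :
    prj s (c + e) ⁅x, y⁆ = ⁅x, prj s c y⁆ :=
  hs.prj_comm (f := ad x) (fun d z hz => by rw [add_comm]; exact lie_mem_eig hx hz) c y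

theorem Diag.add {s t : L} (hs : Diag s) (ht : Diag t) (h : ⁅s, t⁆ = 0) : Diag (s + t) :=
  hs.eq_top fun c => ht.le_of_stable
    (fun y hy => by simpa using lie_mem_eig (mem_eig_zero.2 h) hy) fun d x hx hx' =>
      Submodule.mem_iSup_of_mem (c + d) (mem_eig_add hx hx')

theorem exists_gap (s : L) : ∃ δ : ℚ, 0 < δ ∧ pos s = fil s (δ ≤ ·) := by
  classical
  by_cases h : ((spec s).filter (0 < ·)).Nonempty
  · obtain ⟨δ, hδ, hmin⟩ := Finset.exists_min_image _ id h
    refine ⟨δ, (Finset.mem_filter.1 hδ).2, le_antisymm (fil_le fun c hc => ?_)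
      (fil_mono fun c hc => lt_of_lt_of_le (Finset.mem_filter.1 hδ).2 hc)⟩
    by_cases h0 : eig s c = ⊥
    · simp [h0]
    · exact eig_le_fil (hmin c (Finset.mem_filter.2 ⟨mem_spec.2 h0, hc⟩))
  · refine ⟨1, one_pos, le_antisymm (fil_le fun c hc => ?_)
      (fil_mono fun c hc => lt_of_lt_of_le one_pos hc)⟩
    have : eig s c = ⊥ := by
      by_contra h0
      exact h ⟨c, Finset.mem_filter.2 ⟨mem_spec.2 h0, hc⟩⟩
    simp [this]

/-- The filtration attached to `s`: it starts at the top, ends at zero, and `pos s` lowers it. -/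
theorem Diag.exists_chain {s : L} (hs : Diag s) : ∃ (W : ℕ → Submodule ℚ L) (N : ℕ),
    W 0 = ⊤ ∧ W N = ⊥ ∧ Antitone W ∧ (∀ k, ∃ a : ℚ, W k = fil s (a ≤ ·)) ∧
      ∀ k, ∀ x ∈ pos s, ∀ y ∈ W k, ⁅x, y⁆ ∈ W (k + 1) := by
  obtain ⟨δ, hδ, e⟩ := exists_gap s
  obtain ⟨B, hB⟩ := ((spec s).image abs).bddAbove
  have hB' : ∀ c, eig s c ≠ ⊥ → |c| ≤ B := fun c hc =>
    hB (Finset.mem_coe.2 (Finset.mem_image_of_mem _ (mem_spec.2 hc)))
  obtain ⟨N, hN⟩ := exists_nat_gt (2 * B / δ)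
  rw [div_lt_iff₀ hδ] at hN
  refine ⟨fun k => fil s (-B + k * δ ≤ ·), N, hs.fil_true fun c hc => ?_,
    fil_false fun c hc => ?_, fun k k' hk => fil_mono fun c hc => ?_, fun k => ⟨_, rfl⟩,
    fun k x hx y hy => lie_mem_fil ?_ (e ▸ hx) hy⟩
  · have := abs_le.1 (hB' c hc)
    simpa using this.1
  · by_contra h0
    have := abs_le.1 (hB' c h0)
    linarith [this.2]
  · have : (k : ℚ) * δ ≤ k' * δ := by gcongr
    linarith
  · intro c d hc hd
    push_cast
    linarith

theorem Diag.nil_of_mem_pos {s x : L} (hs : Diag s) (hx : x ∈ pos s) : Nil x := by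
  obtain ⟨W, N, h0, hN, -, -, h⟩ := hs.exists_chain
  have key : ∀ k y, (ad x ^ k) y ∈ W k := fun k y => by
    induction k with
    | zero => simp [h0]
    | succ k ih => rw [pow_succ', Module.End.mul_apply]; exact h k x hx _ ih
  exact ⟨N, LinearMap.ext fun y => by simpa [hN] using key N y⟩

theorem Diag.nil_of_mem_eig {s x : L} {c : ℚ} (hs : Diag s) (hc : c ≠ 0) (hx : x ∈ eig s c) :
    Nil x := by
  rcases lt_or_gt_of_ne hc with h | h
  · exact hs.neg.nil_of_mem_pos (mem_pos (neg_pos.2 h) (by rwa [eig_neg, neg_neg]))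
  · exact hs.nil_of_mem_pos (mem_pos h hx)

end Fin

end Pool.Agent.MP_2b113a_an.H33
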