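import Mathlib
import Pool.Agent.MP_2b113a_an.H33.LieA

/-!
Exponentials, automorphisms, the Vandermonde argument, flags and lattices.
-/

namespace Pool.Agent.MP_2b113a_an.H33

open Polynomial Finset

variable {L : Type} [LieRing L] [LieAlgebra ℚ L]

/-! ### Nilpotent elements and exponentials -/

theorem nil_zero : Nil (0 : L) := by simp [Nil]

theorem Nil.smul {x : L} (h : Nil x) (c : ℚ) : Nil (c • x) := by
  rw [Nil, ad_smul]; exact IsNilpotent.smul h c

theorem Nil.neg {x : L} (h : Nil x) : Nil (-x) := by simpa using h.smul (-1)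

theorem Nil.add {x y : L} (hx : Nil x) (hy : Nil y) (h : ⁅x, y⁆ = 0) : Nil (x + y) := by
  rw [Nil, ad_add]; exact (commute_ad h).isNilpotent_add hx hy

theorem ex_zero : ex (0 : L) = 1 := by rw [ex, ad_zero, IsNilpotent.exp_zero]

theorem ex_eq_sum {x : L} {N : ℕ} (h : ad x ^ N = 0) :
    ex x = ∑ i ∈ range N, (i.factorial : ℚ)⁻¹ • ad x ^ i := IsNilpotent.exp_eq_sum h

theorem ex_apply {x y : L} (hx : Nil x) {N : ℕ} (h : (ad x ^ N) y = 0) :
    ex x y = ∑ i ∈ range N, (i.factorial : ℚ)⁻¹ • (ad x ^ i) y :=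
  IsNilpotent.exp_smul_eq_sum (M := L) (a := ad x) (m := y) h hx

theorem ex_smul_apply {x y : L} (hx : Nil x) {N : ℕ} (h : (ad x ^ N) y = 0) (t : ℚ) :
    ex (t • x) y = ∑ i ∈ range N, t ^ i • (i.factorial : ℚ)⁻¹ • (ad x ^ i) y := by
  rw [ex_apply (hx.smul t) (N := N) (by rw [ad_smul, _root_.smul_pow]; simp [h])]
  refine Finset.sum_congr rfl fun i _ => ?_
  rw [ad_smul, _root_.smul_pow, LinearMap.smul_apply, smul_comm]

theorem ex_apply_one {x y : L} (hx : Nil x) (h : ⁅x, y⁆ = 0) : ex x y = y := by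
  rw [ex_apply hx (N := 1) (by simpa using h)]
  simp

theorem ex_apply_two {x y : L} (hx : Nil x) (h : ⁅x, ⁅x, y⁆⁆ = 0) : ex x y = y + ⁅x, y⁆ := by
  rw [ex_apply hx (N := 2) (by simpa [pow_succ] using h)]
  simp [Finset.sum_range_succ]

theorem ex_apply_three {x y : L} (hx : Nil x) (h : ⁅x, ⁅x, ⁅x, y⁆⁆⁆ = 0) :
    ex x y = y + ⁅x, y⁆ + (2 : ℚ)⁻¹ • ⁅x, ⁅x, y⁆⁆ := by
  rw [ex_apply hx (N := 3) (by simpa [pow_succ] using h)]
  simp [Finset.sum_range_succ, pow_succ]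

theorem ex_self {x : L} (hx : Nil x) : ex x x = x := ex_apply_one hx (lie_self x)

theorem ex_add {x y : L} (hx : Nil x) (hy : Nil y) (h : ⁅x, y⁆ = 0) :
    ex (x + y) = ex x * ex y := by
  rw [ex, ad_add]; exact IsNilpotent.exp_add_of_commute (commute_ad h) hx hy

theorem ex_add_smul {x : L} (hx : Nil x) (a b : ℚ) :
    ex ((a + b) • x) = ex (a • x) * ex (b • x) := by
  rw [add_smul, ex_add (hx.smul a) (hx.smul b) (by simp)]

theorem ex_mul_neg {x : L} (hx : Nil x) : ex x * ex (-x) = 1 := by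
  rw [← ex_add hx hx.neg (by simp), add_neg_cancel, ex_zero]

theorem ex_neg_mul {x : L} (hx : Nil x) : ex (-x) * ex x = 1 := by
  rw [← ex_add hx.neg hx (by simp), neg_add_cancel, ex_zero]

theorem ex_ex_neg {x : L} (hx : Nil x) (y : L) : ex x (ex (-x) y) = y :=
  LinearMap.congr_fun (ex_mul_neg hx) y

theorem ex_neg_ex {x : L} (hx : Nil x) (y : L) : ex (-x) (ex x y) = y :=
  LinearMap.congr_fun (ex_neg_mul hx) y

theorem pow_mem_of_stable {x y : L} {W : Submodule ℚ L} (hW : ∀ y ∈ W, ⁅x, y⁆ ∈ W) (hy : y ∈ W)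
    (k : ℕ) : (ad x ^ k) y ∈ W := by
  induction k with
  | zero => simpa using hy
  | succ k ih => rw [pow_succ', Module.End.mul_apply]; exact hW _ ih

theorem ex_mem {x y : L} {W : Submodule ℚ L} (hW : ∀ y ∈ W, ⁅x, y⁆ ∈ W) (hy : y ∈ W) :
    ex x y ∈ W := by
  simp only [ex, IsNilpotent.exp, LinearMap.sum_apply, LinearMap.smul_apply]
  exact W.sum_mem fun i _ => W.smul_mem _ (pow_mem_of_stable hW hy i)

theorem ex_sub_mem {x y : L} (hx : Nil x) {W : Submodule ℚ L} (hW : ∀ y ∈ W, ⁅x, y⁆ ∈ W)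
    (hy : ⁅x, y⁆ ∈ W) : ex x y - y ∈ W := by
  obtain ⟨N, hN⟩ := id hx
  rw [ex_apply hx (N := N + 1) (by rw [pow_succ', hN]; simp), Finset.sum_range_succ']
  simp only [Nat.factorial_zero, Nat.cast_one, inv_one, pow_zero, Module.End.one_apply, one_smul,
    add_sub_cancel_right]
  exact W.sum_mem fun i _ => W.smul_mem _ (by
    rw [pow_succ, Module.End.mul_apply]; exact pow_mem_of_stable hW hy i)

theorem ex_sub_sub_mem {x y : L} (hx : Nil x) {W : Submodule ℚ L} (hW : ∀ y ∈ W, ⁅x, y⁆ ∈ W)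
    (hy : ⁅x, ⁅x, y⁆⁆ ∈ W) : ex x y - y - ⁅x, y⁆ ∈ W := by
  obtain ⟨N, hN⟩ := id hx
  rw [ex_apply hx (N := N + 1 + 1) (by rw [pow_succ', pow_succ', hN]; simp),
    Finset.sum_range_succ', Finset.sum_range_succ']
  simp only [Nat.factorial_zero, Nat.cast_one, inv_one, pow_zero, Module.End.one_apply, one_smul,
    add_sub_cancel_right, zero_add, Nat.factorial_one, pow_one, ad_apply]
  exact W.sum_mem fun i _ => W.smul_mem _ (by
    rw [pow_succ, pow_succ, Module.End.mul_apply, Module.End.mul_apply]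
    exact pow_mem_of_stable hW hy i)

theorem map_ex {x : L} (hx : Nil x) {W : Submodule ℚ L} (hW : ∀ y ∈ W, ⁅x, y⁆ ∈ W) :
    W.map (ex x) = W := by
  refine le_antisymm ?_ fun y hy => ⟨ex (-x) y, ex_mem (fun z hz => ?_) hy, ex_ex_neg hx y⟩
  · rintro _ ⟨y, hy, rfl⟩
    exact ex_mem hW hy
  · rw [neg_lie]; exact neg_mem (hW z hz)

/-! ### Automorphisms -/

theorem isAut_one : IsAut (1 : Module.End ℚ L) := ⟨Function.bijective_id, fun _ _ => rfl⟩

theorem IsAut.mul {g h : Module.End ℚ L} (hg : IsAut g) (hh : IsAut h) : IsAut (g * h) :=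
  ⟨hg.bij.comp hh.bij, fun x y => by simp [hh.lie, hg.lie]⟩

theorem isAut_of_inv {g g' : Module.End ℚ L} (h : g * g' = 1) (h' : g' * g = 1)
    (hl : ∀ x y, g ⁅x, y⁆ = ⁅g x, g y⁆) : IsAut g :=
  ⟨⟨Function.LeftInverse.injective (g := g') (LinearMap.congr_fun h'),
    Function.RightInverse.surjective (g := g') (LinearMap.congr_fun h)⟩, hl⟩

theorem IsAut.exists_inv {g : Module.End ℚ L} (hg : IsAut g) :
    ∃ g' : Module.End ℚ L, IsAut g' ∧ g * g' = 1 ∧ g' * g = 1 := by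
  let e := LinearEquiv.ofBijective g hg.bij
  have h1 : ∀ x, g (e.symm x) = x := e.apply_symm_apply
  have h2 : ∀ x, e.symm (g x) = x := e.symm_apply_apply
  refine ⟨e.symm.toLinearMap, ⟨e.symm.bijective, fun x y => hg.bij.1 ?_⟩, LinearMap.ext h1,
    LinearMap.ext h2⟩
  simp [hg.lie, h1]

theorem Nil.isAut_ex {x : L} (hx : Nil x) : IsAut (ex x) := by
  refine isAut_of_inv (ex_mul_neg hx) (ex_neg_mul hx) fun y z => ?_
  have h : IsNilpotent (LieDerivation.ad ℚ L x).toLinearMap := by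
    rw [LieDerivation.coe_ad_apply_eq_ad_apply]; exact hx
  have := (LieDerivation.exp _ h).map_lie y z
  simpa only [LieDerivation.exp_map_apply, LieDerivation.coe_ad_apply_eq_ad_apply, ex] using this

theorem isAut_prod_ex {l : List L} (h : ∀ x ∈ l, Nil x) : IsAut (l.map ex).prod := by
  induction l with
  | nil => exact isAut_one
  | cons x l ih =>
    rw [List.map_cons, List.prod_cons]
    exact (h x List.mem_cons_self).isAut_ex.mul (ih fun y hy => h y (List.mem_cons_of_mem _ hy))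

theorem IsAut.mul_ad {g : Module.End ℚ L} (hg : IsAut g) (x : L) : g * ad x = ad (g x) * g := by
  ext y
  simp [hg.lie]

theorem IsAut.mul_ad_pow {g : Module.End ℚ L} (hg : IsAut g) (x : L) (k : ℕ) :
    g * ad x ^ k = ad (g x) ^ k * g := by
  induction k with
  | zero => simp
  | succ k ih => rw [pow_succ, ← mul_assoc, ih, mul_assoc, hg.mul_ad, pow_succ, mul_assoc]

theorem IsAut.nil {g : Module.End ℚ L} (hg : IsAut g) {x : L} (hx : Nil x) : Nil (g x) := by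
  obtain ⟨N, hN⟩ := hx
  refine ⟨N, LinearMap.ext fun y => ?_⟩
  obtain ⟨z, rfl⟩ := hg.bij.2 y
  have := LinearMap.congr_fun (hg.mul_ad_pow x N) z
  simpa [hN] using this.symm

theorem IsAut.mul_ex {g : Module.End ℚ L} (hg : IsAut g) {x : L} (hx : Nil x) :
    g * ex x = ex (g x) * g :=
  (Module.End.commute_exp_left_of_commute hx (hg.nil hx) (hg.mul_ad x).symm).symm

theorem IsAut.apply_ex {g : Module.End ℚ L} (hg : IsAut g) {x : L} (hx : Nil x) (y : L) :
    g (ex x y) = ex (g x) (g y) := LinearMap.congr_fun (hg.mul_ex hx) y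

theorem IsAut.apply_mem_map {g : Module.End ℚ L} (hg : IsAut g) {W : Submodule ℚ L} {x : L} :
    g x ∈ W.map g ↔ x ∈ W :=
  ⟨fun ⟨_, hy, e⟩ => hg.bij.1 e ▸ hy, fun h => ⟨x, h, rfl⟩⟩

theorem IsAut.mem_eig_iff {g : Module.End ℚ L} (hg : IsAut g) {s x : L} {c : ℚ} :
    g x ∈ eig (g s) c ↔ x ∈ eig s c := by
  rw [mem_eig, mem_eig, ← hg.lie, ← map_smul, hg.bij.1.eq_iff]

theorem IsAut.map_eig {g : Module.End ℚ L} (hg : IsAut g) (s : L) (c : ℚ) :
    (eig s c).map g = eig (g s) c := by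
  ext y
  obtain ⟨x, rfl⟩ := hg.bij.2 y
  rw [hg.mem_eig_iff]
  exact hg.apply_mem_map

theorem IsAut.map_fil {g : Module.End ℚ L} (hg : IsAut g) (s : L) (p : ℚ → Prop) :
    (fil s p).map g = fil (g s) p := by
  simp only [fil, Submodule.map_iSup, hg.map_eig]

theorem IsAut.mem_fil_iff {g : Module.End ℚ L} (hg : IsAut g) {s x : L} {p : ℚ → Prop} :
    g x ∈ fil (g s) p ↔ x ∈ fil s p := by
  rw [← hg.map_fil]
  exact hg.apply_mem_map

theorem IsAut.map_pos {g : Module.End ℚ L} (hg : IsAut g) (s : L) :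
    (pos s).map g = pos (g s) := hg.map_fil s _

theorem IsAut.map_par {g : Module.End ℚ L} (hg : IsAut g) (s : L) :
    (par s).map g = par (g s) := hg.map_fil s _

theorem IsAut.diag {g : Module.End ℚ L} (hg : IsAut g) {s : L} (hs : Diag s) : Diag (g s) := by
  have := congrArg (Submodule.map g) hs
  simp only [Submodule.map_iSup, hg.map_eig, Submodule.map_top] at this
  rw [Diag, this, LinearMap.range_eq_top.2 hg.bij.2]

/-! ### The Vandermonde argument -/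

theorem vander {M : Type} [AddCommGroup M] [Module ℚ M] {W : Submodule ℚ M} {N : ℕ} {w : ℕ → M}
    {T : Finset ℚ} (hT : N ≤ T.card) (h : ∀ t ∈ T, ∑ i ∈ range N, t ^ i • w i ∈ W) :
    ∀ i < N, w i ∈ W := by
  intro i hi
  by_contra hw
  obtain ⟨f, hf, hf0⟩ := Submodule.exists_dual_map_eq_bot_of_notMem hw inferInstance
  have hW : ∀ y ∈ W, f y = 0 := fun y hy => by
    have : f y ∈ W.map f := ⟨y, hy, rfl⟩
    rwa [hf0, Submodule.mem_bot] at this
  have hp : (∑ j ∈ range N, monomial j (f (w j)) : ℚ[X]) = 0 := by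
    refine Polynomial.eq_zero_of_degree_lt_of_eval_finset_eq_zero T ?_ fun t ht => ?_
    · refine lt_of_lt_of_le ((Polynomial.degree_sum_le _ _).trans_lt ?_) (Nat.cast_le.2 hT)
      rw [Finset.sup_lt_iff (WithBot.bot_lt_coe _)]
      intro j hj
      exact (Polynomial.degree_monomial_le _ _).trans_lt (Nat.cast_lt.2 (Finset.mem_range.1 hj))
    · have := hW _ (h t ht)
      simpa [Polynomial.eval_finsetSum, mul_comm] using this
  have := congrArg (fun p : ℚ[X] => p.coeff i) hp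
  simp [Polynomial.coeff_monomial, hi] at this
  exact hf this

theorem vander_inf {M : Type} [AddCommGroup M] [Module ℚ M] {W : Submodule ℚ M} {N : ℕ}
    {w : ℕ → M} {T : Set ℚ} (hT : T.Infinite) (h : ∀ t ∈ T, ∑ i ∈ range N, t ^ i • w i ∈ W) :
    ∀ i < N, w i ∈ W := by
  obtain ⟨F, hF, hc⟩ := hT.exists_subset_card_eq N
  exact vander hc.ge fun t ht => h t (hF ht)

/-! ### Flags -/

theorem sp_nil : sp ([] : List L) = ⊥ := by simp [sp]

theorem sp_cons (x : L) (l : List L) : sp (x :: l) = (ℚ ∙ x) ⊔ sp l := by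
  rw [sp, sp, ← Submodule.span_insert]
  congr 1
  ext z
  simp

theorem mem_sp_cons {x y : L} {l : List L} :
    y ∈ sp (x :: l) ↔ ∃ (c : ℚ), ∃ z ∈ sp l, y = c • x + z := by
  rw [sp_cons, Submodule.mem_sup]
  constructor
  · rintro ⟨a, ha, z, hz, rfl⟩
    obtain ⟨c, rfl⟩ := Submodule.mem_span_singleton.1 ha
    exact ⟨c, z, hz, rfl⟩
  · rintro ⟨c, z, hz, rfl⟩
    exact ⟨c • x, Submodule.mem_span_singleton.2 ⟨c, rfl⟩, z, hz, rfl⟩

theorem mem_sp {x : L} {l : List L} (h : x ∈ l) : x ∈ sp l := Submodule.subset_span h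

theorem sp_le {l : List L} {W : Submodule ℚ L} : sp l ≤ W ↔ ∀ x ∈ l, x ∈ W := Submodule.span_le

theorem sp_le_cons (x : L) (l : List L) : sp l ≤ sp (x :: l) := by
  rw [sp_cons]; exact le_sup_right

theorem sp_append (l l' : List L) : sp (l ++ l') = sp l ⊔ sp l' := by
  rw [sp, sp, sp, ← Submodule.span_union]
  congr 1
  ext z
  simp

theorem CFlag.mono {u u' : Submodule ℚ L} (hu : u' ≤ u) :
    ∀ {l : List L}, CFlag u l → CFlag u' l
  | [], _ => trivial
  | _ :: _, h => ⟨fun y hy => h.1 y (hu hy), CFlag.mono hu h.2⟩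

theorem CFlag.lie_mem {u : Submodule ℚ L} :
    ∀ {l : List L}, CFlag u l → ∀ y ∈ u, ∀ z ∈ sp l, ⁅y, z⁆ ∈ sp l
  | [], _, y, _, z, hz => by
    rw [sp_nil, Submodule.mem_bot] at hz
    simp [hz]
  | x :: l, h, y, hy, z, hz => by
    obtain ⟨c, w, hw, rfl⟩ := mem_sp_cons.1 hz
    rw [lie_add, lie_smul]
    exact sp_le_cons x l (add_mem (Submodule.smul_mem _ _ (h.1 y hy)) (h.2.lie_mem y hy w hw))

theorem CFlag.lie_cons {u : Submodule ℚ L} {x : L} {l : List L} (h : CFlag u (x :: l)) :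
    ∀ y ∈ u, ∀ z ∈ sp (x :: l), ⁅y, z⁆ ∈ sp l := by
  intro y hy z hz
  obtain ⟨c, w, hw, rfl⟩ := mem_sp_cons.1 hz
  rw [lie_add, lie_smul]
  exact add_mem (Submodule.smul_mem _ _ (h.1 y hy)) (h.2.lie_mem y hy w hw)

theorem CFlag.flag {u : Submodule ℚ L} : ∀ {l : List L}, CFlag u l → (∀ x ∈ l, x ∈ u) → Flag l
  | [], _, _ => trivial
  | x :: _, h, hl => ⟨h.2.lie_mem x (hl x List.mem_cons_self),
      h.2.flag fun y hy => hl y (List.mem_cons_of_mem _ hy)⟩

theorem CFlag.append {u : Submodule ℚ L} {l' : List L} (h' : CFlag u l') :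
    ∀ {l : List L}, (∀ x ∈ l, ∀ y ∈ u, ⁅y, x⁆ ∈ sp l') → CFlag u (l ++ l')
  | [], _ => h'
  | x :: l, h => ⟨fun y hy => (sp_append l l').ge
      (Submodule.mem_sup_right (h x List.mem_cons_self y hy)),
      h'.append fun z hz => h z (List.mem_cons_of_mem _ hz)⟩

theorem exists_list_span [Module.Finite ℚ L] (Z : Set L) :
    ∃ l : List L, (∀ x ∈ l, x ∈ Z) ∧ sp l = Submodule.span ℚ Z := by
  obtain ⟨F, hF, hs⟩ := (Submodule.fg_span_iff_fg_span_finset_subset Z).1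
    (IsNoetherian.noetherian (Submodule.span ℚ Z))
  refine ⟨F.toList, fun x hx => hF (by simpa using hx), ?_⟩
  rw [hs, sp]
  congr 1
  ext z
  simp

/-- A central flag from a chain of submodules, with entries in a prescribed set. -/
theorem exists_cflag_of_chain [Module.Finite ℚ L] (u : Submodule ℚ L) (Z : Set L) :
    ∀ (N : ℕ) (W : ℕ → Submodule ℚ L), W N = ⊥ → Antitone W →
      (∀ k, ∀ x ∈ u, ∀ y ∈ W k, ⁅x, y⁆ ∈ W (k + 1)) →
      (∀ k, W k ≤ Submodule.span ℚ (Z ∩ W k)) →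
      ∃ l, CFlag u l ∧ sp l = W 0 ∧ ∀ z ∈ l, z ∈ Z := by
  intro N
  induction N with
  | zero => exact fun W h _ _ _ => ⟨[], trivial, by rw [sp_nil, h], by simp⟩
  | succ N ih =>
    intro W h hW hl hZ
    obtain ⟨l', h1, h2, h3⟩ := ih (fun k => W (k + 1)) h
      (fun k k' hk => hW (Nat.succ_le_succ hk)) (fun k => hl (k + 1)) fun k => hZ (k + 1)
    obtain ⟨l, h4, h5⟩ := exists_list_span (Z ∩ W 0)
    refine ⟨l ++ l', h1.append fun x hx y hy => h2 ▸ hl 0 y hy x (h4 x hx).2, ?_, fun z hz => ?_⟩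
    · rw [sp_append, h2, h5]
      refine le_antisymm (sup_le (Submodule.span_le.2 fun x hx => hx.2) (hW (Nat.zero_le _))) ?_
      exact le_sup_of_le_left (hZ 0)
    · rcases List.mem_append.1 hz with h | h
      exacts [(h4 z h).1, h3 z h]

/-- A central flag of a submodule that is stable under a part of a unipotent radical. -/
theorem Diag.exists_cflag [Module.Finite ℚ L] {σ : L} (hσ : Diag σ) {u i : Submodule ℚ L}
    (hu : u ≤ pos σ) (hi : ∀ x ∈ u, ∀ y ∈ i, ⁅x, y⁆ ∈ i) : ∃ l, CFlag u l ∧ sp l = i := by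
  obtain ⟨W, N, h0, hN, ha, -, h⟩ := hσ.exists_chain
  obtain ⟨l, h1, h2, -⟩ := exists_cflag_of_chain u Set.univ N (fun k => i ⊓ W k) (by simp [hN])
    (fun k k' hk => inf_le_inf_left _ (ha hk))
    (fun k x hx y hy => ⟨hi x hx y hy.1, h k x (hu hx) y hy.2⟩) fun k => by simp
  exact ⟨l, h1, by simpa [h0] using h2⟩

/-- A central flag of a unipotent radical with entries in a set that spans the eigenspaces. -/
theorem Diag.exists_cflag_pos [Module.Finite ℚ L] {σ : L} (hσ : Diag σ) (Z : Set L)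
    (hZ : ∀ c, 0 < c → eig σ c ≤ Submodule.span ℚ (Z ∩ eig σ c)) :
    ∃ l, CFlag (pos σ) l ∧ sp l = pos σ ∧ ∀ z ∈ l, z ∈ Z ∧ ∃ d : ℚ, 0 < d ∧ z ∈ eig σ d := by
  obtain ⟨W, N, h0, hN, ha, hf, h⟩ := hσ.exists_chain
  obtain ⟨l, h1, h2, h3⟩ := exists_cflag_of_chain (pos σ)
    {z | z ∈ Z ∧ ∃ d : ℚ, 0 < d ∧ z ∈ eig σ d} N (fun k => pos σ ⊓ W k) (by simp [hN])
    (fun k k' hk => inf_le_inf_left _ (ha hk))
    (fun k x hx y hy => ⟨lie_mem_pos hx hy.1, h k x hx y hy.2⟩) fun k y hy => by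
      obtain ⟨a, e⟩ := hf k
      have h4 := hσ.mem_fil_inf hy.1 (e ▸ hy.2)
      refine (fil_le fun c hc => (hZ c hc.1).trans (Submodule.span_mono ?_)) h4
      exact fun z hz => ⟨⟨hz.1, c, hc.1, hz.2⟩, mem_pos hc.1 hz.2, e ▸ eig_le_fil hc.2 hz.2⟩
  exact ⟨l, h1, by simpa [h0] using h2, h3⟩

/-! ### Lattices -/

theorem mem_lat {n : ℕ} {b : Module.Basis (Fin n) ℚ L} {x : L} :
    x ∈ lat b ↔ ∀ i, ∃ z : ℤ, b.repr x i = z := by
  rw [lat, Module.Basis.mem_span_iff_repr_mem]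
  exact forall_congr' fun i => ⟨fun ⟨z, h⟩ => ⟨z, h.symm⟩, fun ⟨z, h⟩ => ⟨z, h.symm⟩⟩

theorem lat_int_smul {n : ℕ} {b : Module.Basis (Fin n) ℚ L} {x : L} (h : x ∈ lat b) (t : ℤ) :
    (t : ℚ) • x ∈ lat b := by
  rw [Int.cast_smul_eq_zsmul]; exact Submodule.smul_mem _ _ h

theorem lat_nat_smul {n : ℕ} {b : Module.Basis (Fin n) ℚ L} {x : L} (h : x ∈ lat b) (t : ℕ) :
    (t : ℚ) • x ∈ lat b := by simpa using lat_int_smul h t

theorem exists_smul_mem_lat {n : ℕ} (b : Module.Basis (Fin n) ℚ L) (x : L) :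
    ∃ N : ℕ, 0 < N ∧ (N : ℚ) • x ∈ lat b := by
  refine ⟨∏ i, (b.repr x i).den, Finset.prod_pos fun i _ => (b.repr x i).den_pos,
    mem_lat.2 fun i => ?_⟩
  obtain ⟨k, hk⟩ : (b.repr x i).den ∣ ∏ i, (b.repr x i).den :=
    Finset.dvd_prod_of_mem _ (Finset.mem_univ i)
  refine ⟨k * (b.repr x i).num, ?_⟩
  rw [map_smul, Finsupp.smul_apply, hk, smul_eq_mul]
  push_cast
  rw [mul_comm _ (k : ℚ), mul_assoc, mul_comm ((b.repr x i).den : ℚ), Rat.mul_den_eq_num]

theorem exists_smul_mem_lat_finite {n : ℕ} (b : Module.Basis (Fin n) ℚ L) {F : Set L}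
    (hF : F.Finite) : ∃ N : ℕ, 0 < N ∧ ∀ x ∈ F, (N : ℚ) • x ∈ lat b := by
  induction F, hF using Set.Finite.induction_on with
  | empty => exact ⟨1, one_pos, by simp⟩
  | @insert a _ _ _ ih =>
    obtain ⟨N, hN, h⟩ := ih
    obtain ⟨M, hM, h'⟩ := exists_smul_mem_lat b a
    refine ⟨N * M, mul_pos hN hM, ?_⟩
    rintro x (rfl | hx)
    · rw [Nat.cast_mul, mul_smul]; exact lat_nat_smul h' N
    · rw [Nat.cast_mul, mul_comm, mul_smul]; exact lat_nat_smul (h x hx) M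

theorem le_span_inter_lat {n : ℕ} (b : Module.Basis (Fin n) ℚ L) (W : Submodule ℚ L) :
    W ≤ Submodule.span ℚ ((lat b : Set L) ∩ W) := fun x hx => by
  obtain ⟨N, hN, h⟩ := exists_smul_mem_lat b x
  have hN' : (N : ℚ) ≠ 0 := by exact_mod_cast hN.ne'
  have : x = (N : ℚ)⁻¹ • (N : ℚ) • x := by rw [smul_smul, inv_mul_cancel₀ hN', one_smul]
  rw [this]
  exact Submodule.smul_mem _ _ (Submodule.subset_span ⟨h, W.smul_mem _ hx⟩)

end Pool.Agent.MP_2b113a_an.H33
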