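import Mathlib
import Pool.Agent.MP_2b113a_an.H33.LieB

/-!
The Killing form, simple algebras, maximal split tori and their weights.
-/

namespace Pool.Agent.MP_2b113a_an.H33

open Finset

variable {L : Type} [LieRing L] [LieAlgebra ℚ L]

/-! ### The Killing form -/

/-- The Killing form. -/
noncomputable abbrev kil (x y : L) : ℚ := killingForm ℚ L x y

theorem kil_comm (x y : L) : kil x y = kil y x := LieModule.traceForm_comm ℚ L L x y

theorem kil_lie (x y z : L) : kil ⁅x, y⁆ z = kil x ⁅y, z⁆ :=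
  LieModule.traceForm_apply_lie_apply ℚ L L x y z

theorem kil_lie' (x y z : L) : kil ⁅x, y⁆ z = -kil y ⁅x, z⁆ :=
  LieModule.traceForm_apply_lie_apply' ℚ L L x y z

theorem kil_eq_trace (x y : L) : kil x y = LinearMap.trace ℚ L (ad x * ad y) := rfl

theorem kil_eig {s x y : L} {c d : ℚ} (hx : x ∈ eig s c) (hy : y ∈ eig s d) (h : c + d ≠ 0) :
    kil x y = 0 := by
  have := kil_lie' s x y
  rw [mem_eig.1 hx, mem_eig.1 hy] at this
  simp only [kil, map_smul, LinearMap.smul_apply, smul_eq_mul] at this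
  have h2 : (c + d) * kil x y = 0 := by simp only [kil]; linarith
  exact (mul_eq_zero.1 h2).resolve_left h

theorem kil_fil {s x y : L} {p q : ℚ → Prop} (h : ∀ c d, p c → q d → c + d ≠ 0)
    (hx : x ∈ fil s p) (hy : y ∈ fil s q) : kil x y = 0 := by
  have : fil s p ≤ LinearMap.ker (killingForm ℚ L y) := fil_le fun c hc x hx => by
    have : fil s q ≤ LinearMap.ker (killingForm ℚ L x) := fil_le fun d hd y hy =>
      kil_eig hx hy (h c d hc hd)
    exact (kil_comm y x).trans (this hy)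
  exact (kil_comm x y).trans (this hx)

theorem IsAut.kil_eq {g : Module.End ℚ L} (hg : IsAut g) (x y : L) :
    kil (g x) (g y) = kil x y := by
  obtain ⟨g', -, h1, h2⟩ := hg.exists_inv
  have : ad (g x) * ad (g y) = g * (ad x * ad y * g') := by
    rw [← mul_assoc, ← mul_assoc, hg.mul_ad, mul_assoc (ad (g x)), hg.mul_ad, mul_assoc,
      mul_assoc, h1, mul_one]
  rw [kil_eq_trace, kil_eq_trace, this, LinearMap.trace_mul_comm, mul_assoc, h2, mul_one]

variable [Module.Finite ℚ L]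

theorem Diag.trace_prj {s : L} (hs : Diag s) (c : ℚ) :
    LinearMap.trace ℚ L (prj s c) = Module.finrank ℚ (eig s c) :=
  LinearMap.IsProj.trace ⟨hs.prj_mem c, fun _ hx => prj_self hx⟩

theorem Diag.kil_self {s : L} (hs : Diag s) :
    kil s s = ∑ c ∈ spec s, c ^ 2 * Module.finrank ℚ (eig s c) := by
  have : ad s * ad s = ∑ c ∈ spec s, c ^ 2 • prj s c := by
    rw [← mul_one (ad s * ad s), ← hs.sum_prj, Finset.mul_sum]
    refine Finset.sum_congr rfl fun c _ => LinearMap.ext fun x => ?_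
    have := mem_eig.1 (hs.prj_mem c x)
    simp [this, smul_smul, sq]
  rw [kil_eq_trace, this, map_sum]
  simp [hs.trace_prj]

theorem Diag.kil_nonneg {s : L} (hs : Diag s) : 0 ≤ kil s s := by
  rw [hs.kil_self]
  positivity

section Simple

variable [LieAlgebra.IsSimple ℚ L]

theorem eq_zero_of_kil {x : L} (h : ∀ y, kil x y = 0) : x = 0 :=
  (LieAlgebra.IsKilling.killingForm_nondegenerate ℚ L).1 x h

theorem eq_zero_of_lie {x : L} (h : ∀ y : L, ⁅x, y⁆ = 0) : x = 0 :=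
  eq_zero_of_kil fun y => by
    have : ad x = 0 := LinearMap.ext h
    rw [kil_eq_trace, this]
    simp

theorem ad_injective : Function.Injective (ad : L → Module.End ℚ L) := fun x y h =>
  sub_eq_zero.1 (eq_zero_of_lie fun z => by
    have := LinearMap.congr_fun h z
    simp only [ad_apply] at this
    rw [sub_lie, this, sub_self])

theorem Diag.eq_zero_of_kil {s x : L} {p : ℚ → Prop} (hs : Diag s) (hx : x ∈ fil s p)
    (h : ∀ c, p (-c) → ∀ y ∈ eig s c, kil x y = 0) : x = 0 := by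
  have : LinearMap.ker (killingForm ℚ L x) = ⊤ := hs.eq_top fun c y hy => by
    by_cases hc : p (-c)
    · exact h c hc y hy
    · refine kil_fil (q := (· = c)) (fun a d ha hd h0 => hc ?_) hx (mem_fil_eq hy)
      rwa [← hd, ← eq_neg_of_add_eq_zero_left h0]
  exact H33.eq_zero_of_kil fun y => (this ▸ Submodule.mem_top : y ∈ LinearMap.ker _)

/-- The orthogonal complement of a sum of eigenspaces. -/
theorem Diag.mem_fil_of_kil {s x : L} {p : ℚ → Prop} (hs : Diag s)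
    (h : ∀ c, ¬p (-c) → ∀ y ∈ eig s c, kil x y = 0) : x ∈ fil s p :=
  hs.mem_fil.2 fun c hc => hs.eq_zero_of_kil (p := (· = c)) (mem_fil_eq (hs.prj_mem c x))
    fun d hd y hy => by
      have hd' : -d = c := hd
      rw [← h d (hd' ▸ hc) y hy]
      conv_rhs => rw [← hs.sum_prj_apply x]
      simp only [kil, map_sum, LinearMap.sum_apply]
      rw [Finset.sum_eq_single c]
      · exact fun e _ he => kil_eig (hs.prj_mem e x) hy fun h0 =>
          he (by rw [← hd']; exact eq_neg_of_add_eq_zero_left h0)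
      · intro hc'
        have : prj s c x = 0 := by
          have h1 := hs.prj_mem c x
          rwa [not_not.1 (mt mem_spec.2 hc'), Submodule.mem_bot] at h1
        simp [this]

theorem Diag.exists_eig {s : L} (hs : Diag s) (h0 : s ≠ 0) : ∃ c, c ≠ 0 ∧ eig s c ≠ ⊥ := by
  by_contra h
  push Not at h
  have : eig s 0 = ⊤ := hs.eq_top fun c => by
    by_cases hc : c = 0
    · exact hc ▸ le_rfl
    · simp [h c hc]
  exact h0 (eq_zero_of_lie fun y => mem_eig_zero.1 (this ▸ Submodule.mem_top))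

theorem Diag.kil_pos {s : L} (hs : Diag s) (h0 : s ≠ 0) : 0 < kil s s := by
  obtain ⟨c, hc, h⟩ := hs.exists_eig h0
  rw [hs.kil_self]
  refine Finset.sum_pos' (fun d _ => by positivity) ⟨c, mem_spec.2 h, ?_⟩
  have : 0 < Module.finrank ℚ (eig s c) := Submodule.one_le_finrank_iff.2 h
  positivity

theorem Diag.eig_neg_ne {s : L} (hs : Diag s) {c : ℚ} (h : eig s c ≠ ⊥) : eig s (-c) ≠ ⊥ := by
  intro h0
  obtain ⟨x, hx, hx0⟩ := Submodule.exists_mem_ne_zero_of_ne_bot h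
  refine hx0 (hs.eq_zero_of_kil (p := (· = c)) (mem_fil_eq hx) fun d hd y hy => ?_)
  have hd' : d = -c := by rw [← hd, neg_neg]
  rw [hd', h0, Submodule.mem_bot] at hy
  simp [hy]

omit [Module.Finite ℚ L] in
/-- A nonzero submodule that is stable under all brackets is everything. -/
theorem eq_top_of_ideal {W : Submodule ℚ L} (h0 : W ≠ ⊥) (h : ∀ x : L, ∀ y ∈ W, ⁅x, y⁆ ∈ W) :
    W = ⊤ := by
  let I : LieIdeal ℚ L := { W with lie_mem := fun {x y} hy => h x y hy }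
  rcases LieAlgebra.IsSimple.eq_bot_or_eq_top I with h1 | h1
  · exact absurd (congrArg LieSubmodule.toSubmodule h1) h0
  · exact congrArg LieSubmodule.toSubmodule h1

/-- The nonzero eigenspaces of a nonzero split element generate the algebra. -/
theorem Diag.star {s : L} (hs : Diag s) (h0 : s ≠ 0) (k : LieSubalgebra ℚ L)
    (hk : ∀ c, c ≠ 0 → eig s c ≤ k.toSubmodule) : k = ⊤ := by
  let Z : Set L := {x | ∃ c, c ≠ 0 ∧ x ∈ eig s c}
  have hZ : LieSubalgebra.lieSpan ℚ L Z ≤ k :=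
    LieSubalgebra.lieSpan_le.2 fun x ⟨c, hc, hx⟩ => hk c hc hx
  have h1 : (LieSubalgebra.lieSpan ℚ L Z).toSubmodule = ⊤ := by
    refine eq_top_of_ideal ?_ fun x y hy => ?_
    · obtain ⟨c, hc, h⟩ := hs.exists_eig h0
      exact fun h' => h (le_bot_iff.1 (h' ▸ fun x hx =>
        LieSubalgebra.subset_lieSpan (R := ℚ) (s := Z) ⟨c, hc, hx⟩))
    · have : (LieSubalgebra.lieSpan ℚ L Z).toSubmodule.comap (-ad y) = ⊤ := hs.eq_top fun c x hx => by
        rw [Submodule.mem_comap, LinearMap.neg_apply, ad_apply, lie_skew]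
        by_cases hc : c = 0
        · subst hc
          induction hy using LieSubalgebra.lieSpan_induction with
          | mem z hz =>
            obtain ⟨d, hd, hz⟩ := hz
            exact LieSubalgebra.subset_lieSpan ⟨d, hd, by simpa using lie_mem_eig hx hz⟩
          | zero => simp
          | add a b _ _ ha hb => rw [lie_add]; exact add_mem ha hb
          | smul t a _ ha => rw [lie_smul]; exact Submodule.smul_mem _ _ ha
          | lie a b ha hb ha' hb' =>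
            rw [leibniz_lie]
            exact add_mem (LieSubalgebra.lie_mem _ ha' hb) (LieSubalgebra.lie_mem _ ha hb')
        · exact LieSubalgebra.lie_mem _ (LieSubalgebra.subset_lieSpan ⟨c, hc, hx⟩) hy
      have h2 : x ∈ (LieSubalgebra.lieSpan ℚ L Z).toSubmodule.comap (-ad y) :=
        this ▸ Submodule.mem_top
      rwa [Submodule.mem_comap, LinearMap.neg_apply, ad_apply, lie_skew] at h2
  refine top_le_iff.1 fun x _ => hZ ?_
  exact (h1 ▸ Submodule.mem_top : x ∈ (LieSubalgebra.lieSpan ℚ L Z).toSubmodule)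

end Simple

/-! ### Tori -/

theorem exists_tor {s₁ s₂ : L} (hi : LinearIndependent ℚ ![s₁, s₂]) (hc : ⁅s₁, s₂⁆ = 0)
    (h₁ : Diag s₁) (h₂ : Diag s₂) : Nonempty (Tor L) := by
  let P : Submodule ℚ L → Prop := fun S => (∀ s ∈ S, ∀ t ∈ S, ⁅s, t⁆ = 0) ∧ ∀ s ∈ S, Diag s
  have step : ∀ S, P S → ∀ x, Diag x → (∀ s ∈ S, ⁅s, x⁆ = 0) → P (S ⊔ ℚ ∙ x) := by
    intro S hS x hx hxS
    have hm : ∀ y ∈ S ⊔ ℚ ∙ x, ∃ s ∈ S, ∃ c : ℚ, y = s + c • x := fun y hy => by
      obtain ⟨s, hs, z, hz, rfl⟩ := Submodule.mem_sup.1 hy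
      obtain ⟨c, rfl⟩ := Submodule.mem_span_singleton.1 hz
      exact ⟨s, hs, c, rfl⟩
    refine ⟨fun y hy z hz => ?_, fun y hy => ?_⟩
    · obtain ⟨s, hs, c, rfl⟩ := hm y hy
      obtain ⟨t, ht, d, rfl⟩ := hm z hz
      have : ⁅x, t⁆ = 0 := by rw [← lie_skew, hxS t ht, neg_zero]
      simp [hS.1 s hs t ht, hxS s hs, this]
    · obtain ⟨s, hs, c, rfl⟩ := hm y hy
      exact (hS.2 s hs).add (hx.smul c) (by simp [hxS s hs])
  have h0 : P ⊥ := ⟨by simp, fun s hs => by rw [Submodule.mem_bot] at hs; exact hs ▸ diag_zero⟩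
  have h12 : P ((⊥ ⊔ ℚ ∙ s₁) ⊔ ℚ ∙ s₂) := step _ (step _ h0 s₁ h₁ (by simp)) s₂ h₂ fun s hs => by
    rw [bot_sup_eq] at hs
    obtain ⟨c, rfl⟩ := Submodule.mem_span_singleton.1 hs
    simp [hc]
  obtain ⟨S, hS, hmax⟩ := exists_maximal_ge_of_wellFoundedGT P _ h12
  refine ⟨⟨S, hmax.1.1, hmax.1.2, fun x hx hxS => ?_, ?_⟩⟩
  · exact hmax.2 (step S hmax.1 x hx hxS) le_sup_left
      (Submodule.mem_sup_right (Submodule.mem_span_singleton_self x))
  · have h3 : Submodule.span ℚ (Set.range ![s₁, s₂]) ≤ S := by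
      refine Submodule.span_le.2 ?_
      rintro _ ⟨i, rfl⟩
      fin_cases i
      · exact hS (Submodule.mem_sup_left (Submodule.mem_sup_right
          (Submodule.mem_span_singleton_self _)))
      · exact hS (Submodule.mem_sup_right (Submodule.mem_span_singleton_self _))
    have := Submodule.finrank_mono h3
    rwa [finrank_span_eq_card hi, Fintype.card_fin] at this

namespace Tor

variable (τ : Tor L)

omit [Module.Finite ℚ L] in
theorem mem_wt {β : Module.Dual ℚ τ.S} {x : L} :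
    x ∈ τ.wt β ↔ ∀ s : τ.S, ⁅(s : L), x⁆ = β s • x := by
  simp [Tor.wt, Submodule.mem_iInf, mem_eig]

omit [Module.Finite ℚ L] in
theorem wt_le_eig (β : Module.Dual ℚ τ.S) (s : τ.S) : τ.wt β ≤ eig (s : L) (β s) :=
  iInf_le (fun s : τ.S => eig (s : L) (β s)) s

omit [Module.Finite ℚ L] in
theorem lie_mem_wt {β γ : Module.Dual ℚ τ.S} {x y : L} (hx : x ∈ τ.wt β) (hy : y ∈ τ.wt γ) :
    ⁅x, y⁆ ∈ τ.wt (β + γ) :=
  (Submodule.mem_iInf _).2 fun s => lie_mem_eig (τ.wt_le_eig β s hx) (τ.wt_le_eig γ s hy)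

omit [Module.Finite ℚ L] in
theorem mem_wt_zero (s : τ.S) : (s : L) ∈ τ.wt 0 :=
  τ.mem_wt.2 fun t => by simp [τ.comm _ t.2 _ s.2]

omit [Module.Finite ℚ L] in
theorem diag' (s : τ.S) : Diag (s : L) := τ.diag _ s.2

omit [Module.Finite ℚ L] in
theorem eq_zero_of_mem_wt {β γ : Module.Dual ℚ τ.S} {x : L} (hx : x ∈ τ.wt β) (hx' : x ∈ τ.wt γ)
    (h : β ≠ γ) : x = 0 := by
  obtain ⟨s, hs⟩ := DFunLike.ne_iff.1 h
  exact eq_zero_of_mem_eig (τ.wt_le_eig β s hx) (τ.wt_le_eig γ s hx') hs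

theorem nil_of_mem_wt {β : Module.Dual ℚ τ.S} (h : β ≠ 0) {x : L} (hx : x ∈ τ.wt β) : Nil x := by
  obtain ⟨s, hs⟩ := DFunLike.ne_iff.1 h
  exact (τ.diag' s).nil_of_mem_eig hs (τ.wt_le_eig β s hx)

/-- A submodule that is stable under the torus is spanned by weight vectors. -/
theorem le_of_stable {W W' : Submodule ℚ L} (hW : ∀ s : τ.S, ∀ y ∈ W, ⁅(s : L), y⁆ ∈ W)
    (h : ∀ β, ∀ x ∈ W, x ∈ τ.wt β → x ∈ W') : W ≤ W' := by
  classical
  let e := Module.finBasis ℚ τ.S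
  have key : ∀ F : Finset (Fin (Module.finrank ℚ τ.S)), W ≤ ⨆ χ : _ → ℚ,
      W ⊓ ⨅ i ∈ F, eig (e i : L) (χ i) := by
    intro F
    induction F using Finset.induction_on with
    | empty => exact le_iSup_of_le 0 (by simp)
    | @insert a F ha ih =>
      refine ih.trans (iSup_le fun χ => (τ.diag' (e a)).le_of_stable (fun y hy => ⟨hW _ y hy.1, ?_⟩)
        fun c x hx hc => Submodule.mem_iSup_of_mem (Function.update χ a c) ⟨hx.1, ?_⟩)
      · have := hy.2
        simp only [SetLike.mem_coe, Submodule.mem_iInf] at this ⊢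
        exact fun i hi => by
          simpa using lie_mem_eig (mem_eig_zero.2 (τ.comm _ (e i).2 _ (e a).2)) (this i hi)
      · have := hx.2
        simp only [SetLike.mem_coe, Submodule.mem_iInf] at this ⊢
        intro i hi
        rcases Finset.mem_insert.1 hi with rfl | hi
        · simpa using hc
        · rw [Function.update_of_ne fun h' : i = a => ha (h' ▸ hi)]
          exact this i hi
  refine (key Finset.univ).trans (iSup_le fun χ x hx => h (e.constr ℚ χ) x hx.1 ?_)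
  have h2 := hx.2
  simp only [SetLike.mem_coe, Submodule.mem_iInf, mem_eig] at h2
  have : (-ad x) ∘ₗ τ.S.subtype = (LinearMap.toSpanSingleton ℚ L x) ∘ₗ (e.constr ℚ χ) :=
    e.ext fun i => by simp [h2 i (Finset.mem_univ i)]
  refine τ.mem_wt.2 fun s => ?_
  simpa [Finset.sum_smul] using LinearMap.congr_fun this s

theorem eq_top {W : Submodule ℚ L} (h : ∀ β, τ.wt β ≤ W) : W = ⊤ :=
  top_le_iff.1 (τ.le_of_stable (fun _ _ _ => Submodule.mem_top) fun β _ _ hx => h β hx)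

theorem iSup_wt : ⨆ β, τ.wt β = ⊤ := τ.eq_top fun β => le_iSup _ β

theorem fil_le {s : τ.S} {p : ℚ → Prop} {W : Submodule ℚ L}
    (h : ∀ β, p (β s) → τ.wt β ≠ ⊥ → τ.wt β ≤ W) : fil (s : L) p ≤ W :=
  H33.fil_le fun c hc => τ.le_of_stable
    (fun t y hy => by simpa using lie_mem_eig (mem_eig_zero.2 (τ.comm _ s.2 _ t.2)) hy)
    fun β x hx hβ => by
      by_cases h0 : x = 0
      · simp [h0]
      have : β s = c := by
        by_contra hne
        exact h0 (eq_zero_of_mem_eig (τ.wt_le_eig β s hβ) hx hne)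
      exact h β (this ▸ hc) (fun hb => h0 (by simpa [hb] using hβ)) hβ

theorem eig_le {s : τ.S} {c : ℚ} {W : Submodule ℚ L}
    (h : ∀ β, β s = c → τ.wt β ≠ ⊥ → τ.wt β ≤ W) : eig (s : L) c ≤ W :=
  fil_eq (s : L) c ▸ τ.fil_le h

theorem finite_wt : {β | τ.wt β ≠ ⊥}.Finite := by
  let e := Module.finBasis ℚ τ.S
  have hinj : Function.Injective fun (β : Module.Dual ℚ τ.S) i => β (e i) :=
    fun β γ h => e.ext fun i => congrFun h i
  refine ((Set.Finite.pi' fun i => finite_eig (e i : L)).preimage hinj.injOn).subset ?_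
  intro β hβ i h0
  exact hβ (le_bot_iff.1 (h0 ▸ τ.wt_le_eig β (e i)))

omit [Module.Finite ℚ L] in
/-- Finitely many nonzero forms have a common non-zero. -/
theorem exists_ne_zero {F : Set (Module.Dual ℚ τ.S)} (hF : F.Finite) :
    ∃ σ : τ.S, ∀ β ∈ F, β ≠ 0 → β σ ≠ 0 := by
  have : Finite {β // β ∈ F ∧ β ≠ 0} := (hF.subset fun _ h => h.1).to_subtype
  obtain ⟨σ, h⟩ := Module.Dual.exists_forall_ne_zero_of_forall_exists
    (fun β : {β // β ∈ F ∧ β ≠ 0} => β.1) fun β => DFunLike.ne_iff.1 β.2.2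
  exact ⟨σ, fun β h1 h2 => h ⟨β, h1, h2⟩⟩

/-- A generic element of the torus: its eigenspaces are the weight spaces. -/
theorem exists_generic : ∃ σ : τ.S, (∀ β γ, τ.wt β ≠ ⊥ → τ.wt γ ≠ ⊥ → β σ = γ σ → β = γ) ∧
    ∀ β, τ.wt β ≠ ⊥ → eig (σ : L) (β σ) = τ.wt β := by
  obtain ⟨σ, h⟩ := τ.exists_ne_zero (τ.finite_wt.image2 (· - ·) τ.finite_wt)
  have h1 : ∀ β γ, τ.wt β ≠ ⊥ → τ.wt γ ≠ ⊥ → β σ = γ σ → β = γ := fun β γ hβ hγ e => by
    by_contra hne
    exact h (β - γ) ⟨β, hβ, γ, hγ, rfl⟩ (sub_ne_zero.2 hne) (by simp [e])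
  exact ⟨σ, h1, fun β hβ => le_antisymm (τ.eig_le fun γ e hγ => h1 γ β hγ hβ e ▸ le_rfl)
    (τ.wt_le_eig β σ)⟩

theorem exists_ker (β : Module.Dual ℚ τ.S) : ∃ σ : τ.S, σ ≠ 0 ∧ β σ = 0 := by
  have h1 := LinearMap.finrank_range_add_finrank_ker β
  have h2 : Module.finrank ℚ (LinearMap.range β) ≤ 1 := by
    simpa using Submodule.finrank_le (LinearMap.range β)
  have h3 := τ.rank
  obtain ⟨σ, hσ, h0⟩ := Submodule.exists_mem_ne_zero_of_ne_bot
    (Submodule.one_le_finrank_iff.1 (by omega) : LinearMap.ker β ≠ ⊥)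
  exact ⟨σ, h0, hσ⟩

omit [Module.Finite ℚ L] in
/-- Two nonzero forms that are not negatively proportional are both positive somewhere. -/
theorem exists_pos_two {β γ : Module.Dual ℚ τ.S} (hβ : β ≠ 0) (hγ : γ ≠ 0)
    (h : ∀ c : ℚ, 0 < c → γ ≠ -(c • β)) : ∃ σ : τ.S, 0 < β σ ∧ 0 < γ σ := by
  obtain ⟨s, hs⟩ := DFunLike.ne_iff.1 hβ
  have hs' : β s ≠ 0 := hs
  obtain ⟨u, hu⟩ : ∃ u : τ.S, β u = 1 := ⟨(β s)⁻¹ • s, by simp [hs']⟩
  by_cases hk : ∀ t, β t = 0 → γ t = 0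
  · have e : γ = γ u • β := LinearMap.ext fun t => by
      have := hk (t - β t • u) (by simp [hu])
      simp only [map_sub, map_smul, smul_eq_mul] at this
      simp only [LinearMap.smul_apply, smul_eq_mul]
      linarith
    rcases lt_trichotomy (γ u) 0 with h1 | h1 | h1
    · exact absurd (by rw [neg_smul, neg_neg]; exact e) (h (-γ u) (neg_pos.2 h1))
    · exact absurd (by rw [e, h1, zero_smul]) hγ
    · exact ⟨u, by simp [hu], h1⟩
  · push Not at hk
    obtain ⟨t, h1, h2⟩ := hk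
    refine ⟨u + ((1 - γ u) / γ t) • t, by simp [hu, h1], ?_⟩
    simp only [map_add, map_smul, smul_eq_mul]
    rw [div_mul_cancel₀ _ h2]
    simp

omit [Module.Finite ℚ L] in
theorem kil_wt {β γ : Module.Dual ℚ τ.S} {x y : L} (hx : x ∈ τ.wt β) (hy : y ∈ τ.wt γ)
    (h : β + γ ≠ 0) : kil x y = 0 := by
  obtain ⟨s, hs⟩ := DFunLike.ne_iff.1 h
  exact kil_eig (τ.wt_le_eig β s hx) (τ.wt_le_eig γ s hy) hs

/-- A central flag of `pos σ` made of weight vectors in a lattice. -/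
theorem exists_cflag (σ : τ.S) {n : ℕ} (b : Module.Basis (Fin n) ℚ L) :
    ∃ l, CFlag (pos (σ : L)) l ∧ sp l = pos (σ : L) ∧
      ∀ z ∈ l, z ∈ lat b ∧ ∃ β, 0 < β σ ∧ z ∈ τ.wt β := by
  obtain ⟨l, h1, h2, h3⟩ := (τ.diag' σ).exists_cflag_pos
    {z | z ∈ lat b ∧ ∃ β, 0 < β σ ∧ z ∈ τ.wt β} fun c hc => τ.eig_le fun β e _ =>
      (le_span_inter_lat b _).trans (Submodule.span_mono fun z hz =>
        ⟨⟨hz.1, β, e ▸ hc, hz.2⟩, e ▸ τ.wt_le_eig β σ hz.2⟩)
  exact ⟨l, h1, h2, fun z hz => (h3 z hz).1⟩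

variable [LieAlgebra.IsSimple ℚ L]

theorem eq_zero_of_kil_wt {β : Module.Dual ℚ τ.S} {x : L} (hx : x ∈ τ.wt β)
    (h : ∀ y ∈ τ.wt (-β), kil x y = 0) : x = 0 := by
  have : LinearMap.ker (killingForm ℚ L x) = ⊤ := τ.eq_top fun γ y hy => by
    by_cases hγ : γ = -β
    · exact h y (hγ ▸ hy)
    · exact τ.kil_wt hx hy fun h0 => hγ (eq_neg_of_add_eq_zero_right h0)
  exact eq_zero_of_kil fun y => (this ▸ Submodule.mem_top : y ∈ LinearMap.ker _)

theorem wt_neg_ne {β : Module.Dual ℚ τ.S} (h : τ.wt β ≠ ⊥) : τ.wt (-β) ≠ ⊥ := by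
  intro h0
  obtain ⟨x, hx, hx0⟩ := Submodule.exists_mem_ne_zero_of_ne_bot h
  refine hx0 (τ.eq_zero_of_kil_wt hx fun y hy => ?_)
  rw [h0, Submodule.mem_bot] at hy
  simp [hy]

/-- The weight spaces on which a nonzero element of the torus is nonzero generate the algebra. -/
theorem star {s : τ.S} (h0 : s ≠ 0) (k : LieSubalgebra ℚ L)
    (hk : ∀ β, β s ≠ 0 → τ.wt β ≤ k.toSubmodule) : k = ⊤ :=
  (τ.diag' s).star (by simpa using h0) k fun c hc => τ.eig_le fun β e _ => hk β (e ▸ hc)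

theorem exists_wt {s : τ.S} (h0 : s ≠ 0) : ∃ β, 0 < β s ∧ τ.wt β ≠ ⊥ := by
  obtain ⟨c, hc, h⟩ := (τ.diag' s).exists_eig (by simpa using h0)
  obtain ⟨β, e, hβ⟩ : ∃ β, β s = c ∧ τ.wt β ≠ ⊥ := by
    by_contra h'
    push Not at h'
    exact h (le_bot_iff.1 (τ.eig_le fun β e hβ => absurd (h' β e) hβ))
  rcases lt_or_gt_of_ne hc with h1 | h1
  · exact ⟨-β, by simpa [e] using h1, τ.wt_neg_ne hβ⟩
  · exact ⟨β, e ▸ h1, hβ⟩

end Tor

end Pool.Agent.MP_2b113a_an.H33
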