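import Pool.Agent.MP_2b113a_an.H48.MB
import Pool.Agent.MP_2b113a_an.H32.TR
import Pool.Agent.MP_2b113a_an.H99.Roots

/-!
The uniform estimate.
-/

namespace Pool.Agent.MP_2b113a_an.H33

open H48

variable {L : Type} [LieRing L] [LieAlgebra ℚ L] {Γ : Type} [Group Γ] (A : AG L Γ)
  {H : Type} [NormedAddCommGroup H] [InnerProductSpace ℝ H] (ρ : Γ →* (H ≃ₗᵢ[ℝ] H))

/-- The displacement of a vector. -/
noncomputable def dis (ξ : H) (g : Γ) : ℝ := ‖ρ g ξ - ξ‖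

theorem dis_mul (ξ : H) (g h : Γ) : dis ρ ξ (g * h) ≤ dis ρ ξ g + dis ρ ξ h := by
  have e : ρ (g * h) ξ - ξ = (ρ g ξ - ξ) + ρ g (ρ h ξ - ξ) := by
    rw [pi_mul, map_sub]; abel
  rw [dis, e]
  exact (norm_add_le _ _).trans (by rw [(ρ g).norm_map]; rfl)

theorem dis_inv (ξ : H) (g : Γ) : dis ρ ξ g⁻¹ = dis ρ ξ g := by
  rw [dis, dis, ← (ρ g).norm_map, map_sub, ← pi_mul, mul_inv_cancel, map_one, norm_sub_rev]
  rfl

theorem dis_conj (ξ : H) (g h : Γ) : dis ρ ξ (g * h * g⁻¹) = dis ρ (ρ g⁻¹ ξ) h := by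
  rw [dis, dis, ← (ρ g⁻¹).norm_map, map_sub, pi_mul, pi_mul, pi_inv_pi]

theorem dis_lev {ξ : H} {δ : ℝ} {q : ℕ} {l' l : List L} (h : Lev q l' l)
    (hl : ∀ z ∈ l, ∀ t : ℤ, dis ρ ξ (A.E (((t : ℚ) * q) • z)) ≤ δ) :
    dis ρ ξ (l'.map A.E).prod ≤ l.length * δ := by
  have h1 : l'.length = l.length := List.Forall₂.length_eq h
  rw [← h1, ← List.length_map (f := A.E)]
  refine norm_prod_le ρ _ fun g hg => ?_
  obtain ⟨z', hz', rfl⟩ := List.mem_map.1 hg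
  clear hg h1
  induction h with
  | nil => simp at hz'
  | @cons a b l' l h _ ih =>
    rcases List.mem_cons.1 hz' with rfl | hz'
    · obtain ⟨t, rfl⟩ := h
      exact hl b List.mem_cons_self t
    · exact ih (fun z hz => hl z (List.mem_cons_of_mem _ hz)) hz'

theorem act_prod : ∀ {l : List L}, (∀ z ∈ l, z ∈ lat A.b ∧ Nil z) →
    A.act (l.map A.E).prod = (l.map ex).prod
  | [], _ => by simp
  | z :: l, h => by
    rw [List.map_cons, List.prod_cons, List.map_cons, List.prod_cons, map_mul,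
      A.act_E z (h z List.mem_cons_self).1 (h z List.mem_cons_self).2,
      act_prod fun w hw => h w (List.mem_cons_of_mem _ hw)]

theorem ev_R {ξ : H} {l : List L} (hl : ∀ z ∈ l, z ∈ A.R ρ ξ) {δ : ℝ} (hδ : 0 < δ) :
    Ev fun r => ∀ z ∈ l, dis ρ ξ (A.E (r • z)) ≤ δ :=
  ev_list l fun z hz => ((mem_R A ρ).1 (hl z hz)).2 δ hδ

variable [Module.Finite ℚ L]

/-- Uniform almost invariance on a whole unipotent radical. -/
theorem ev_pos (ht : TRStmt) {ξ : H} {σ : L} (hσ : Diag σ) (h : ∀ x ∈ pos σ, x ∈ A.R ρ ξ) {δ : ℝ}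
    (hδ : 0 < δ) : Ev fun r => ∀ x ∈ pos σ, x ∈ lat A.b → dis ρ ξ (A.E (r • x)) ≤ δ := by
  obtain ⟨l, h1, h2, h3⟩ := hσ.exists_cflag_pos (lat A.b) fun c _ => le_span_inter_lat A.b _
  have hδ' : 0 < δ / (l.length + 1) := by positivity
  obtain ⟨q, hq, h4⟩ := ev_R A ρ (l := l) (fun z hz => h z (h2 ▸ mem_sp hz)) hδ'
  obtain ⟨q', hq', h5⟩ := ((ht L σ hσ l h1 fun z hz => (h3 z hz).2).2 Γ A
    (fun z hz => (h3 z hz).1) q hq).2 h2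
  refine ⟨q', hq', fun t x hx hx' => ?_⟩
  obtain ⟨l', h6, h7⟩ := h5 _ (Submodule.smul_mem _ (t : ℚ) hx) (lat_int_smul hx' t)
  rw [mul_comm, mul_smul, h7]
  refine (dis_lev A ρ h6 fun z hz t => h4 t z hz).trans ?_
  rw [mul_div_assoc', div_le_iff₀ (by positivity)]
  nlinarith

theorem bracket_le {η : H} {δ : ℝ} {q : ℕ} {s x t : L} {d : ℚ} {T : Submodule ℚ L} (hs : Diag s)
    (hT : ∀ y ∈ T, Nil y ∧ ∀ z ∈ T, ⁅y, z⁆ = 0)
    (hp : ∀ y ∈ pos s, y ∈ lat A.b → dis ρ η (A.E ((q : ℚ) • y)) ≤ δ)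
    (hm : ∀ y ∈ pos (-s), y ∈ lat A.b → dis ρ η (A.E ((q : ℚ) • y)) ≤ δ) (hd : 0 < d)
    (hx : ∀ y ∈ T, ⁅x, y⁆ ∈ T) (hx1 : x ∈ lat A.b) (hx2 : x ∈ eig s d) (ht : t ∈ T)
    (ht1 : t ∈ lat A.b) (ht2 : t ∈ eig s (-d)) :
    dis ρ η (A.E ((q : ℚ) • (q : ℚ) • ⁅x, t⁆)) ≤ 5 * δ := by
  have hxp : x ∈ pos s := mem_pos hd hx2
  have htp : t ∈ pos (-s) := mem_pos hd (by rwa [eig_neg])
  set x' := (q : ℚ) • x with hx'
  have hx'p : x' ∈ pos s := Submodule.smul_mem _ _ hxp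
  have hn := hs.nil_of_mem_pos hx'p
  have hx'1 : x' ∈ lat A.b := lat_nat_smul hx1 q
  have hx'T : ∀ y ∈ T, ⁅x', y⁆ ∈ T := fun y hy => by
    rw [hx', smul_lie]; exact T.smul_mem _ (hx y hy)
  have hx'2 : x' ∈ eig s d := Submodule.smul_mem _ _ hx2
  have h1 : ex x' t - t - ⁅x', t⁆ ∈ T ⊓ pos s :=
    ex_sub_sub_mem hn (fun y hy => ⟨hx'T y hy.1, lie_mem_pos hx'p hy.2⟩)
      ⟨hx'T _ (hx'T t ht), mem_pos hd (by
        simpa using lie_mem_eig hx'2 (lie_mem_eig hx'2 ht2))⟩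
  have h2 : ex x' t ∈ lat A.b := H32.ex_mem_lat A hx'1 hn ht1
  have h3 : ex x' t ∈ T := ex_mem hx'T ht
  set r := ex x' t - t - ⁅x', t⁆ with hr
  have h4 : r ∈ lat A.b := sub_mem (sub_mem h2 ht1) (A.lie_mem _ hx'1 _ ht1)
  have e : (q : ℚ) • (q : ℚ) • ⁅x, t⁆ =
      ((q : ℚ) • ex x' t + (q : ℚ) • (-t)) + (q : ℚ) • (-r) := by
    rw [hr, hx', smul_lie]
    module
  have a1 := T.smul_mem (q : ℚ) h3
  have a2 := T.smul_mem (q : ℚ) (neg_mem ht)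
  have a3 := T.smul_mem (q : ℚ) (neg_mem h1.1)
  have b1 := lat_nat_smul h2 q
  have b2 := lat_nat_smul (neg_mem ht1) q
  have b3 := lat_nat_smul (neg_mem h4) q
  rw [e, A.E_add _ (add_mem b1 b2) _ b3 (hT _ (add_mem a1 a2)).1 (hT _ a3).1
      ((hT _ (add_mem a1 a2)).2 _ a3),
    A.E_add _ b1 _ b2 (hT _ a1).1 (hT _ a2).1 ((hT _ a1).2 _ a2), ← map_smul,
    ← A.act_E _ hx'1 hn, ← A.E_conj _ _ (lat_nat_smul ht1 q) ((hT t ht).1.smul _)]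
  have c1 := hp x hxp hx1
  have c2 := hm t htp ht1
  have c3 := hm _ (neg_mem htp) (neg_mem ht1)
  have c4 := hp _ (neg_mem h1.2) (neg_mem h4)
  have d1 := dis_mul ρ η (A.E x' * A.E ((q : ℚ) • t) * (A.E x')⁻¹ * A.E ((q : ℚ) • (-t)))
    (A.E ((q : ℚ) • (-r)))
  have d2 := dis_mul ρ η (A.E x' * A.E ((q : ℚ) • t) * (A.E x')⁻¹) (A.E ((q : ℚ) • (-t)))
  have d3 := dis_mul ρ η (A.E x' * A.E ((q : ℚ) • t)) (A.E x')⁻¹
  have d4 := dis_mul ρ η (A.E x') (A.E ((q : ℚ) • t))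
  rw [dis_inv] at d3
  linarith

omit [Module.Finite ℚ L] in
theorem sum_le_dis {η : H} {δ : ℝ} {T : Submodule ℚ L} (c : ℚ)
    (hT : ∀ y ∈ T, Nil y ∧ ∀ z ∈ T, ⁅y, z⁆ = 0) : ∀ l : List L,
    (∀ z ∈ l, z ∈ T ∧ c • z ∈ lat A.b ∧ dis ρ η (A.E (c • z)) ≤ δ) →
    l.sum ∈ T ∧ c • l.sum ∈ lat A.b ∧ dis ρ η (A.E (c • l.sum)) ≤ l.length * δ
  | [], _ => by simp [E_zero, dis]
  | z :: l, h => by
    obtain ⟨h1, h2, h3⟩ := h z List.mem_cons_self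
    obtain ⟨h4, h5, h6⟩ := sum_le_dis c hT l fun w hw => h w (List.mem_cons_of_mem _ hw)
    rw [List.sum_cons, smul_add]
    refine ⟨add_mem h1 h4, add_mem h2 h5, ?_⟩
    rw [A.E_add _ h2 _ h5 ((hT z h1).1.smul c) ((hT _ h4).1.smul c)
      ((hT _ (T.smul_mem c h1)).2 _ (T.smul_mem c h4)), List.length_cons]
    refine (dis_mul ρ η _ _).trans ?_
    push_cast
    linarith

omit [Module.Finite ℚ L] in
theorem low_stable {τ : Tor L} (π : Pair τ) {x y : L} (hx : x ∈ par (-(π.s₂ : L)))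
    (hy : y ∈ eig (π.s₂ : L) π.d) : ⁅x, y⁆ ∈ eig (π.s₂ : L) π.d := by
  rw [par_eq, fil_neg] at hx
  have h := lie_mem_fil (r := (· ≤ π.d)) (fun c d (h : 0 ≤ -c) (h' : d = π.d) => by linarith) hx
    (mem_fil_eq hy)
  refine fil_le (W := eig (π.s₂ : L) π.d) (fun c (hc : c ≤ π.d) => ?_) h
  rcases hc.lt_or_eq with hc | rfl
  · simp [π.low c hc]
  · exact le_rfl

theorem low_ab {τ : Tor L} (π : Pair τ) :
    ∀ y ∈ eig (π.s₂ : L) π.d, Nil y ∧ ∀ z ∈ eig (π.s₂ : L) π.d, ⁅y, z⁆ = 0 := fun y hy =>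
  ⟨(τ.diag' _).nil_of_mem_eig π.d_neg.ne hy, fun z hz => by
    have := lie_mem_eig hy hz
    rwa [π.low _ (by linarith [π.d_neg]), Submodule.mem_bot] at this⟩

theorem apt_list [LieAlgebra.IsSimple ℚ L] (ha : AptStmt) (τ : Tor L) {R : Set L} (hR : CL R) :
    ∀ (l : List L) (g : Module.End ℚ L), IsAut g →
      (∀ z ∈ l, ∃ β : Module.Dual ℚ τ.S, β ≠ 0 ∧ z ∈ τ.wt β) →
      (∀ β : Module.Dual ℚ τ.S, β ≠ 0 → ∀ x ∈ τ.wt β, g x ∈ R) →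
      ∀ β : Module.Dual ℚ τ.S, β ≠ 0 → ∀ x ∈ τ.wt β, (g * (l.map ex).prod) x ∈ R
  | [], g, _, _, h => by simpa using h
  | z :: l, g, hg, hl, h => by
    obtain ⟨δ, hδ, hz⟩ := hl z List.mem_cons_self
    rw [List.map_cons, List.prod_cons, ← mul_assoc]
    exact apt_list ha τ hR l _ (hg.mul (τ.nil_of_mem_wt hδ hz).isAut_ex)
      (fun w hw => hl w (List.mem_cons_of_mem _ hw)) (ha L τ R hR g hg h δ hδ z hz)

omit [Module.Finite ℚ L] in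
theorem forall_mul {p : L → Prop} (hp : ∀ (t : ℚ) z, p z → p (t • z)) {l' l : List L}
    (h : List.Forall₂ (fun z' z => ∃ t : ℚ, z' = t • z) l' l) (hl : ∀ z ∈ l, p z) :
    ∀ z ∈ l', p z := by
  induction h with
  | nil => simp
  | @cons a b l' l h _ ih =>
    obtain ⟨t, rfl⟩ := h
    intro w hw
    rcases List.mem_cons.1 hw with rfl | hw
    · exact hp t b (hl b List.mem_cons_self)
    · exact ih (fun w hw => hl w (List.mem_cons_of_mem _ hw)) w hw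

theorem u (ha : AptStmt) (ht : TRStmt) (hg : GlueStmt) (hf : FinStmt) : UStmt := by
  intro L _ _ _ _ τ π Γ _ A H _ _ ρ ξ hR hw X₀ hX₀ ε hε
  obtain ⟨Z, N, hZ, hglue⟩ := hg L τ π Γ A
  obtain ⟨C, hfin⟩ := hf L τ π A.n A.b A.lie_mem X₀ hX₀
  obtain ⟨l₁, hc, hsp, hl₁⟩ := τ.exists_cflag π.s₁ A.b
  have hs₁ := τ.diag' π.s₁
  have hα : -π.α ≠ 0 := neg_ne_zero.2 (H99.ne_of_apply π.α₂.ne')
  have hZR : ∀ z ∈ Z, z ∈ A.R ρ ξ := fun z hz => by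
    obtain ⟨-, c, β, hβ, x, hx, rfl⟩ := hZ z hz
    exact ha L τ _ hR 1 isAut_one hw _ hα _ (Submodule.smul_mem _ c π.Y_mem) β hβ x hx
  have hwt : ∀ z ∈ l₁, ∃ β : Module.Dual ℚ τ.S, β ≠ 0 ∧ z ∈ τ.wt β := fun z hz =>
    let ⟨_, β, h1, h2⟩ := hl₁ z hz
    ⟨β, H99.ne_of_apply h1.ne', h2⟩
  set K : ℝ := 2 * N + 2 * l₁.length + 5 * C + 1 with hK
  have hK0 : 0 < K := by positivity
  have hδ : 0 < ε / K := by positivity
  obtain ⟨q, hq, hlev⟩ := (ev_R A ρ (l := Z.toList) (fun z hz => hZR z (by simpa using hz))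
    hδ).and (ev_R A ρ (l := l₁) (fun z hz => let ⟨β, h1, h2⟩ := hwt z hz; hw β h1 z h2) hδ)
  obtain ⟨D, hD, hglue⟩ := hglue q hq
  obtain ⟨htr, hred⟩ := ht L _ hs₁ l₁ hc fun z hz =>
    let ⟨_, β, h1, h2⟩ := hl₁ z hz
    ⟨_, h1, τ.wt_le_eig β _ h2⟩
  obtain ⟨F, hF, hred⟩ := (hred Γ A (fun z hz => (hl₁ z hz).1) q hq).1 D hD
  have key : ∀ f ∈ F.toList, Diag (π.s₁ + f) ∧ (∀ x ∈ pos (π.s₁ + f), x ∈ A.R ρ ξ) ∧
      ∀ x ∈ pos (-(π.s₁ + f)), x ∈ A.R ρ ξ := fun f hf => by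
    obtain ⟨l', h1, h2⟩ := htr f (hF f (by simpa using hf))
    have h3 : ∀ z ∈ l', ∃ β : Module.Dual ℚ τ.S, β ≠ 0 ∧ z ∈ τ.wt β :=
      forall_mul (fun t z ⟨β, e1, e2⟩ => ⟨β, e1, Submodule.smul_mem _ t e2⟩) h1 hwt
    have h4 := isAut_prod_ex fun z hz => let ⟨_, e1, e2⟩ := h3 z hz; τ.nil_of_mem_wt e1 e2
    have h5 := apt_list ha τ hR l' 1 isAut_one h3 hw
    rw [one_mul] at h5
    have h6 : ∀ σ : τ.S, ∀ x ∈ pos ((l'.map ex).prod σ), x ∈ A.R ρ ξ := fun σ x hx => by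
      obtain ⟨y, hy, rfl⟩ := (h4.map_pos σ).ge hx
      exact H99.pos_subset (H99.cl_preimage hR h4) (σ := σ)
        (fun β hβ z hz => h5 β (H99.ne_of_apply hβ.ne') z hz) hy
    rw [← h2]
    exact ⟨h4.diag hs₁, h6 π.s₁, by simpa using h6 (-π.s₁)⟩
  obtain ⟨q₂, hq₂, hun⟩ := ev_list F.toList fun f hf =>
    (ev_pos A ρ ht (key f hf).1 (key f hf).2.1 hδ).and
      (ev_pos A ρ ht (key f hf).1.neg (key f hf).2.2 hδ)
  obtain ⟨M, hM, hfin⟩ := hfin D hD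
  refine ⟨q₂ * q₂ * M, by positivity, fun a => ?_⟩
  obtain ⟨l, l', s, h1, h2, h3, h4, h5, h6⟩ := hglue a
  obtain ⟨m, m1, m2, m3⟩ := hfin s h4 h5
  obtain ⟨f, hf, l'', h7, h8⟩ := hred _ (hsp.ge h6) (by
    rw [add_sub_cancel, ← map_smul]; exact A.act_mem _ _ h5)
  have hf' : f ∈ F.toList := by simpa using hf
  have h9 := H32.lev_mem h7 (W := pos (π.s₁ : L)) fun z hz => ⟨(hl₁ z hz).1, hsp.le (mem_sp hz)⟩
  rw [add_sub_cancel, ← act_prod A fun z hz => ⟨(h9 z hz).1, hs₁.nil_of_mem_pos (h9 z hz).2⟩] at h8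
  set w := (l'.map A.E).prod with hw
  set U := (l''.map A.E).prod with hU
  set g := U⁻¹ * (w * a) with hg
  have e1 : A.act g s = π.s₁ + f := by
    rw [hg, map_mul, Module.End.mul_apply, ← h8, ← Module.End.mul_apply, ← map_mul,
      inv_mul_cancel, map_one, Module.End.one_apply]
  have hga := act_aut A g
  have hs : Diag s := by
    have := (act_aut A g⁻¹).diag (key f hf').1
    rwa [← e1, ← Module.End.mul_apply, ← map_mul, inv_mul_cancel, map_one,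
      Module.End.one_apply] at this
  have tr : ∀ σ, Diag σ → (∀ x ∈ pos (A.act g σ), x ∈ lat A.b →
      dis ρ ξ (A.E ((((1 : ℤ) : ℚ) * q₂) • x)) ≤ ε / K) →
      ∀ y ∈ pos σ, y ∈ lat A.b → dis ρ (ρ g⁻¹ ξ) (A.E ((q₂ : ℚ) • y)) ≤ ε / K :=
    fun σ hσ h y hy hy' => by
      rw [← dis_conj, A.E_conj _ _ (lat_nat_smul hy' _) ((hσ.nil_of_mem_pos hy).smul _), map_smul]
      simpa using h _ (hga.mem_fil_iff.2 hy) (A.act_mem _ _ hy')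
  have hp := tr s hs (e1 ▸ (hun 1 f hf').1)
  have hm := tr (-s) hs.neg (by rw [map_neg, e1]; exact (hun 1 f hf').2)
  have h10 := (sum_le_dis A ρ (η := ρ g⁻¹ ξ) (δ := 5 * (ε / K)) ((q₂ : ℚ) * q₂) (low_ab π) m
    fun z hz => by
      rw [mul_smul]
      obtain ⟨d, hd, ⟨z1, z2, z3⟩ | ⟨x, t, x1, x2, x3, t1, t2, t3, rfl⟩⟩ := m3 z hz
      · refine ⟨z1, lat_nat_smul (lat_nat_smul z2 _) _, le_trans ?_ (by linarith : ε / K ≤ _)⟩
        rcases lt_or_gt_of_ne hd with hd | hd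
        · exact hm _ (Submodule.smul_mem _ _ (mem_pos (neg_pos.2 hd) (by rwa [eig_neg, neg_neg])))
            (lat_nat_smul z2 _)
        · exact hp _ (Submodule.smul_mem _ _ (mem_pos hd z3)) (lat_nat_smul z2 _)
      · refine ⟨low_stable π x1 t1, lat_nat_smul (lat_nat_smul (A.lie_mem _ x2 _ t2) _) _, ?_⟩
        rcases lt_or_gt_of_ne hd with hd | hd
        · exact bracket_le A ρ hs.neg (low_ab π) hm (by rwa [neg_neg]) (neg_pos.2 hd)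
            (fun y hy => low_stable π x1 hy) x2 (by rwa [eig_neg, neg_neg]) t1 t2
            (by rwa [eig_neg, neg_neg])
        · exact bracket_le A ρ hs (low_ab π) hp hm hd (fun y hy => low_stable π x1 hy) x2 x3 t1
            t2 t3).2.2
  rw [m2, smul_smul, ← dis_conj] at h10
  have e2 : a * A.E (((q₂ * q₂ * M : ℕ) : ℚ) • X₀) * a⁻¹ =
      w⁻¹ * (U * (g * A.E (((q₂ : ℚ) * q₂ * M) • X₀) * g⁻¹) * U⁻¹) * w := by
    rw [hg]
    push_cast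
    group
  have c1 : dis ρ ξ w ≤ l.length * (ε / K) :=
    dis_lev A ρ h3 fun z hz t => (hlev t).1 z (by simpa using h2 z hz)
  have c2 : dis ρ ξ U ≤ l₁.length * (ε / K) := dis_lev A ρ h7 fun z hz t => (hlev t).2 z hz
  show dis ρ ξ _ ≤ ε
  rw [e2]
  set h := g * A.E (((q₂ : ℚ) * q₂ * M) • X₀) * g⁻¹
  have d1 := dis_mul ρ ξ (w⁻¹ * (U * h * U⁻¹)) w
  have d2 := dis_mul ρ ξ w⁻¹ (U * h * U⁻¹)
  have d3 := dis_mul ρ ξ (U * h) U⁻¹
  have d4 := dis_mul ρ ξ U h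
  rw [dis_inv] at d2 d3
  have n1 : (l.length : ℝ) * (ε / K) ≤ N * (ε / K) := by gcongr
  have n2 : (m.length : ℝ) * (5 * (ε / K)) ≤ C * (5 * (ε / K)) := by gcongr
  have n3 : K * (ε / K) = ε := mul_div_cancel₀ _ hK0.ne'
  rw [hK] at n3
  nlinarith

end Pool.Agent.MP_2b113a_an.H33
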