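import Pool.Agent.MP_2b113a_an.H33.Main
import Pool.Agent.MP_2b113a_an.H33.U
import Pool.Agent.MP_2b113a_an.H61.PC
import Pool.Agent.MP_2b113a_an.H50.UI
import Pool.Agent.MP_2b113a_an.H20.Arith
import Pool.Agent.MP_2b113a_an.H24.Koop
import Pool.Agent.MP_2b113a_an.H76.HB
import Pool.Agent.MP_2b113a_an.H88.LG0
import Pool.Agent.MP_2b113a_an.H18.Lat
import Pool.Agent.MP_2b113a_an.H89.Ind
import Pool.Agent.MP_2b113a_an.H23.Conv
import Pool.Agent.MP_2b113a_an.H19.RelT2
import Pool.Agent.MP_2b113a_an.H15.Plane2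
import Pool.Agent.MP_2b113a_an.H41.AM
import Pool.Agent.MP_2b113a_an.H91.AG
import Pool.Agent.MP_2b113a_an.H99.Facts
import Pool.Agent.MP_2b113a_an.H19.Mautner
import Pool.Agent.MP_2b113a_an.H15.ErgT
import Pool.Agent.MP_2b113a_an.H2.ML
import Pool.Agent.MP_2b113a_an.H48.M
import Pool.Agent.MP_2b113a_an.H10.Pair
import Pool.Agent.MP_2b113a_an.H1.Conf
import Pool.Agent.MP_2b113a_an.H2.Fin
import Pool.Agent.MP_2b113a_an.H88.Triple
import Pool.Agent.MP_2b113a_an.H32.Glue
import Pool.Agent.MP_2b113a_an.H76.Ent3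
import Pool.Agent.MP_2b113a_an.H67.Emp3
import Pool.Agent.MP_2b113a_an.H21.Frames
import Pool.Agent.MP_2b113a_an.H49.PD3
import Pool.Agent.MP_2b113a_an.H53.Spec3
import Pool.Agent.MP_2b113a_an.H99.Win3
import Pool.Agent.MP_2b113a_an.H29.RelT3
import Pool.Agent.MP_2b113a_an.H15.Susp3
import Pool.Agent.MP_2b113a_an.H58.Rigid3

/-!
The theorem.
-/

namespace Pool.Agent.MP_2b113a_an.H33

theorem final : Final2Stmt :=
  final_of
    { koop := H24.koop
      cone := H24.cone
      conf := H1.conf H88.triple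
      pair := H10.pair H88.triple
      plane := H15.plane2
      space := H15.space3
        (C3.core_of H76.ent H67.emp (H99.win H58.rigid) (H53.spec H49.PD3.pd)) H21.frames
      mst := H48.mst H61.pc
      three := H99.three H88.triple
      u := u H99.apt H32.tr (H32.glue H20.arith H32.tr) (H2.fin H32.tr H50.ui)
      ergT := H15.ergT H89.ind H19.mautner H19.relT2 (H29.relT3 H49.PD3.pd H21.frames)
      am := H41.am H23.conv H2.ml
      hb := H76.hb
      lg0 := H88.lg0
      facts := H99.facts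
      unimod := H19.unimod
      ag := H91.ag
      latt := H18.latt }

end Pool.Agent.MP_2b113a_an.H33
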