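import Pool.Agent.MP_2b113a_an.H48.MB
import Pool.Agent.MP_2b113a_an.H99.Roots

/-!
From one root element with an invariant measure to a positive vector that is almost fixed by all
root elements.
-/

namespace Pool.Agent.MP_2b113a_an.H33

open MeasureTheory H48 H99

variable {L : Type} [LieRing L] [LieAlgebra ℚ L]

section Two

variable [Module.Finite ℚ L] [LieAlgebra.IsSimple ℚ L] {τ : Tor L} {B : Set L} (hB : CL B)
  (hi : ∀ {β γ : Module.Dual ℚ τ.S}, NP τ γ β → ∀ {x y : L}, x ∈ τ.wt γ → y ∈ τ.wt β → y ∈ B →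
    ⁅x, y⁆ ∈ B)
include hB hi

theorem k1' {β γ : Module.Dual ℚ τ.S} (hβ : β ≠ 0) (h : γ + β ≠ 0) {x y : L} (hx : x ∈ τ.wt γ)
    (hy : y ∈ τ.wt β) (hy' : y ∈ B) : ⁅x, y⁆ ∈ B := by
  obtain ⟨s, hs, h1⟩ := τ.exists_ker β
  by_cases h2 : γ s = 0
  · refine star_lie hB hs h h2 hy (fun δ ε h3 h4 e a ha b hb => ?_) x hx
    exact hi (np_split h3 h (by simp [h1, h2]) (by rw [← e]; abel)) ha
      (τ.lie_mem_wt hb hy) (hi (np_ker hβ h1 h4).symm hb hy hy')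
  · exact hi (np_ker hβ h1 h2).symm hx hy hy'

theorem k2' {β : Module.Dual ℚ τ.S} (hβ : β ≠ 0) {a y : L} (ha : a ∈ τ.wt (-β))
    (hy : y ∈ τ.wt β) (hy' : y ∈ B) {γ : Module.Dual ℚ τ.S} (hγ : γ ≠ 0) {x : L}
    (hx : x ∈ τ.wt γ) : ⁅x, ⁅a, y⁆⁆ ∈ B := by
  have key : ∀ γ : Module.Dual ℚ τ.S, γ ≠ 0 → γ + β ≠ 0 → ∀ x ∈ τ.wt γ, ⁅x, ⁅a, y⁆⁆ ∈ B := by
    intro γ hγ h x hx
    rw [leibniz_lie]
    exact cl_add hB hγ (lie_wt (τ.lie_mem_wt hx ha) hy (by abel))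
      (lie_wt ha (τ.lie_mem_wt hx hy) (by abel))
      (k1' hB hi hβ (by simpa using hγ) (τ.lie_mem_wt hx ha) hy hy')
      (k1' hB hi h (by simpa [add_comm γ β] using hγ) ha (τ.lie_mem_wt hx hy)
        (k1' hB hi hβ h hx hy hy'))
  by_cases h : γ + β = 0
  · obtain ⟨s, hs, h1⟩ := τ.exists_ker β
    have h2 : γ s = 0 := by simpa [h1] using LinearMap.congr_fun h s
    have hz : ⁅a, y⁆ ∈ τ.wt 0 := lie_wt ha hy (by abel)
    refine star_lie hB hs (by simpa using hγ) h2 hz (fun δ ε h3 h4 e a' ha' b hb => ?_) x hx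
    exact k1' hB hi (ne_of_apply h4) (e ▸ hγ) ha' (lie_wt hb hz (add_zero _))
      (key ε (ne_of_apply h4) (ne_of_apply (s := s) (by simpa [h1] using h4)) b hb)
  · exact key γ hγ h x hx

theorem two' {θ : Module.Dual ℚ τ.S} (hθ : θ ≠ 0) {v : L} (hv : v ∈ τ.wt θ) (hv0 : v ≠ 0)
    (hvB : v ∈ B) {β : Module.Dual ℚ τ.S} (hβ : β ≠ 0) {x : L} (hx : x ∈ τ.wt β) : x ∈ B := by
  let T : Set L := {t | (∃ β : Module.Dual ℚ τ.S, β ≠ 0 ∧ t ∈ τ.wt β ∧ t ∈ B) ∨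
    ∃ β : Module.Dual ℚ τ.S, β ≠ 0 ∧ ∃ a ∈ τ.wt (-β), ∃ y ∈ τ.wt β, y ∈ B ∧ t = ⁅a, y⁆}
  have hT : Submodule.span ℚ T = ⊤ := by
    refine span_eq_top (τ := τ) ⟨v, Or.inl ⟨θ, hθ, hv, hvB⟩, hv0⟩ fun κ x hx t ht => ?_
    rcases ht with ⟨β, h1, ht, ht'⟩ | ⟨β, h1, a, ha, y, hy, hy', rfl⟩
    · by_cases h2 : κ + β = 0
      · exact Submodule.subset_span
          (Or.inr ⟨β, h1, x, eq_neg_of_add_eq_zero_left h2 ▸ hx, t, ht, ht', rfl⟩)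
      · exact Submodule.subset_span
          (Or.inl ⟨_, h2, τ.lie_mem_wt hx ht, k1' hB hi h1 h2 hx ht ht'⟩)
    · by_cases h2 : κ = 0
      · subst h2
        rw [leibniz_lie]
        exact add_mem (Submodule.subset_span
            (Or.inr ⟨β, h1, _, lie_wt hx ha (zero_add _), y, hy, hy', rfl⟩))
          (Submodule.subset_span (Or.inr ⟨β, h1, a, ha, _, lie_wt hx hy (zero_add _),
            k1' hB hi h1 (by simpa using h1) hx hy hy', rfl⟩))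
      · exact Submodule.subset_span (Or.inl ⟨κ, h2, lie_wt hx (τ.lie_mem_wt ha hy) (by abel),
          k2' hB hi h1 ha hy hy' h2 hx⟩)
  obtain ⟨σ, hσ⟩ := exists_pos hβ
  refine (proj_wt hT (W := clSub hB (τ.diag' σ)) (fun t ht => ?_) hx).1
  rcases ht with ⟨γ, -, ht, ht'⟩ | ⟨γ, -, a, ha, y, hy, -, rfl⟩
  · exact ⟨γ, ht, fun e => ⟨ht', wt_pos hσ (e ▸ ht)⟩⟩
  · exact ⟨0, lie_wt ha hy (by abel), fun e => absurd e.symm hβ⟩

end Two

variable {Γ : Type} [Group Γ] (A : AG L Γ)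

theorem E_comm {M : Type} [AddCommGroup M] (φ : M → L) (h : ∀ v, φ v ∈ lat A.b ∧ Nil (φ v))
    {x : L} (hx : x ∈ lat A.b) (hn : Nil x) {T : M → M} (hT : ∀ v, ex x (φ v) = φ (T v)) (v : M) :
    A.E x * A.E (φ v) = A.E (φ (T v)) * A.E x := by
  rw [← hT, ← A.act_E x hx hn, ← A.E_conj _ _ (h v).1 (h v).2, inv_mul_cancel_right]

theorem E_int {x : L} (hx : x ∈ lat A.b) (hn : Nil x) (t : ℤ) :
    A.E ((t : ℚ) • x) = A.E x ^ t := by
  have key : ∀ t : ℤ, A.E (((t + 1 : ℤ) : ℚ) • x) = A.E ((t : ℚ) • x) * A.E x := fun t => by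
    rw [Int.cast_add, Int.cast_one, add_smul, one_smul,
      A.E_add _ (lat_int_smul hx t) _ hx (hn.smul _) hn (by simp)]
  induction t using Int.induction_on with
  | zero => simp [E_zero]
  | succ t ih => rw [key, ih, zpow_add_one]
  | pred t ih =>
    have := key (-t - 1)
    rw [sub_add_cancel, ih] at this
    rw [zpow_sub_one, this, mul_inv_cancel_right]

/-- The core theorem gives an invariant measure for one root element. -/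
theorem exists_inv_root [Countable Γ] (h2 : Plane2Stmt) (h3 : Space3Stmt) {X : Type}
    [MeasurableSpace X] [MulAction Γ X] (μ : Measure X) [IsProbabilityMeasure μ]
    (hμ : H83.EC Γ μ) {v₀ : L} (hv : Conf v₀) :
    ∃ N : ℕ, 0 < N ∧ (N : ℚ) • v₀ ∈ lat A.b ∧ Nil v₀ ∧ ∃ ν : Measure X, IsFiniteMeasure ν ∧
      ν ≪ μ ∧ μ ≪ ν ∧ ν.map (fun x : X => A.E ((N : ℚ) • v₀) • x) = ν := by
  obtain ⟨x, y, -, -, -, ⟨v₁, h, -⟩ | ⟨v₁, v₂, h, -⟩⟩ := hv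
  · obtain ⟨N, hN, hl⟩ := exists_smul_mem_lat_finite A.b (F := {v₀, v₁, x, y}) (Set.toFinite _)
    let φ : ℤ × ℤ → L := fun v => (v.1 : ℚ) • (N : ℚ) • v₀ + (v.2 : ℚ) • (N : ℚ) • v₁
    have c10 : ⁅v₁, v₀⁆ = 0 := by rw [← lie_skew, h.c01, neg_zero]
    have hφ : ∀ v, φ v ∈ lat A.b ∧ Nil (φ v) := fun v =>
      ⟨add_mem (lat_int_smul (hl _ (by simp)) _) (lat_int_smul (hl _ (by simp)) _),
        ((h.n0.smul _).smul _).add ((h.n1.smul _).smul _) (by simp [h.c01])⟩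
    obtain ⟨ν, a1, a2, a3, a4⟩ := h2 Γ X μ hμ (fun v => A.E (φ v)) (A.E ((N : ℚ) • x))
      (A.E ((N : ℚ) • y)) N (by exact_mod_cast hN)
      (fun v w => by
        rw [← A.E_add _ (hφ v).1 _ (hφ w).1 (hφ v).2 (hφ w).2 (by simp [φ, h.c01, c10])]
        congr 1
        simp only [φ, Prod.fst_add, Prod.snd_add, Int.cast_add]
        module)
      (E_comm A φ hφ (hl _ (by simp)) (h.nX.smul _) fun v => by
        rw [ex_apply_two (h.nX.smul _) (by simp [φ, h.X0, h.X1])]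
        simp only [φ, U2, lie_add, lie_smul, smul_lie, h.X0, h.X1, smul_eq_mul]
        push_cast
        module)
      (E_comm A φ hφ (hl _ (by simp)) (h.nY.smul _) fun v => by
        rw [ex_apply_two (h.nY.smul _) (by simp [φ, h.Y0, h.Y1])]
        simp only [φ, L2, lie_add, lie_smul, smul_lie, h.Y0, h.Y1, smul_eq_mul]
        push_cast
        module)
    exact ⟨N, hN, hl _ (by simp), h.n0, ν, a1, a2, a3, by simpa [φ] using a4 (1, 0)⟩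
  · obtain ⟨N, hN, hl⟩ := exists_smul_mem_lat_finite A.b (F := {v₀, v₁, v₂, x, y})
      (Set.toFinite _)
    let φ : ℤ × ℤ × ℤ → L := fun v => (v.1 : ℚ) • (N : ℚ) • v₀ +
      ((v.2.1 : ℚ) • (N : ℚ) • v₁ + (v.2.2 : ℚ) • (N : ℚ) • v₂)
    have c10 : ⁅v₁, v₀⁆ = 0 := by rw [← lie_skew, h.c01, neg_zero]
    have c20 : ⁅v₂, v₀⁆ = 0 := by rw [← lie_skew, h.c02, neg_zero]
    have c21 : ⁅v₂, v₁⁆ = 0 := by rw [← lie_skew, h.c12, neg_zero]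
    have hφ : ∀ v, φ v ∈ lat A.b ∧ Nil (φ v) := fun v =>
      ⟨add_mem (lat_int_smul (hl _ (by simp)) _) (add_mem (lat_int_smul (hl _ (by simp)) _)
        (lat_int_smul (hl _ (by simp)) _)),
        ((h.n0.smul _).smul _).add (((h.n1.smul _).smul _).add ((h.n2.smul _).smul _)
          (by simp [h.c12])) (by simp [h.c01, h.c02])⟩
    obtain ⟨ν, a1, a2, a3, a4⟩ := h3 Γ X μ hμ (fun v => A.E (φ v)) (A.E ((N : ℚ) • x))
      (A.E ((N : ℚ) • y)) N (by exact_mod_cast hN)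
      (fun v w => by
        rw [← A.E_add _ (hφ v).1 _ (hφ w).1 (hφ v).2 (hφ w).2
          (by simp [φ, h.c01, h.c02, h.c12, c10, c20, c21])]
        congr 1
        simp only [φ, Prod.fst_add, Prod.snd_add, Int.cast_add]
        module)
      (E_comm A φ hφ (hl _ (by simp)) (h.nX.smul _) fun v => by
        rw [ex_apply_three (h.nX.smul _) (by simp [φ, h.X0, h.X1, h.X2])]
        simp only [φ, U3, lie_add, lie_smul, smul_lie, h.X0, h.X1, h.X2, smul_eq_mul, smul_zero,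
          lie_zero]
        push_cast
        module)
      (E_comm A φ hφ (hl _ (by simp)) (h.nY.smul _) fun v => by
        rw [ex_apply_three (h.nY.smul _) (by simp [φ, h.Y0, h.Y1, h.Y2])]
        simp only [φ, L3, lie_add, lie_smul, smul_lie, h.Y0, h.Y1, h.Y2, smul_eq_mul, smul_zero,
          lie_zero]
        push_cast
        module)
    exact ⟨N, hN, hl _ (by simp), h.n0, ν, a1, a2, a3, by simpa [φ] using a4 (1, 0, 0)⟩

variable {H : Type} [NormedAddCommGroup H] [InnerProductSpace ℝ H] (ρ : Γ →* (H ≃ₗᵢ[ℝ] H))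

theorem mem_R_of_fix {x : L} {N : ℕ} (hN : 0 < N) (hx : (N : ℚ) • x ∈ lat A.b) (hn : Nil x)
    {ζ : H} (h : ρ (A.E ((N : ℚ) • x)) ζ = ζ) : x ∈ A.R ρ ζ := by
  refine ⟨hn, fun ε hε => ⟨N, hN, hx, fun t => ?_⟩⟩
  let S : Subgroup Γ :=
    { carrier := {g | ρ g ζ = ζ}
      one_mem' := by simp
      mul_mem' := fun {a b} (ha : ρ a ζ = ζ) (hb : ρ b ζ = ζ) => by
        show ρ (a * b) ζ = ζ
        rw [pi_mul, hb, ha]
      inv_mem' := fun {a} (ha : ρ a ζ = ζ) => by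
        show ρ a⁻¹ ζ = ζ
        conv_lhs => rw [← ha, pi_inv_pi] }
  have h1 : ρ (A.E ((N : ℚ) • x) ^ t) ζ = ζ := zpow_mem (K := S) h t
  rw [mul_smul, E_int A hx (hn.smul _), h1, sub_self, norm_zero]
  exact hε.le

theorem SP.map {C : Set H} (hi : ∀ g, ∀ η ∈ C, ρ g η ∈ C) {ζ : H} (h : SP C ζ) (g : Γ) :
    SP C (ρ g ζ) := by
  refine ⟨hi g ζ h.1, fun η hη h0 => ?_⟩
  have h1 := h.2 _ (hi g⁻¹ η hη) (by
    rw [← (ρ g).inner_map_map, ← pi_mul, mul_inv_cancel, map_one]; exact h0)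
  exact (ρ g⁻¹).map_eq_zero_iff.1 h1

/-- A strictly positive vector that is almost fixed by all root elements. -/
theorem exists_all [Module.Finite ℚ L] [LieAlgebra.IsSimple ℚ L] [CompleteSpace H] (hM : MStmt)
    (h3 : ThreeStmt) (τ : Tor L) {C : Set H} (hC : IsClosed C) (hc : Convex ℝ C)
    (hi : ∀ g, ∀ η ∈ C, ρ g η ∈ C) {θ : Module.Dual ℚ τ.S} (hθ : θ ≠ 0) {v : L}
    (hv : v ∈ τ.wt θ) (hv0 : v ≠ 0) {ζ : H} (hζ : SP C ζ) (hvR : v ∈ A.R ρ ζ) :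
    ∃ ξ, SP C ξ ∧ CL (A.R ρ ξ) ∧
      ∀ β : Module.Dual ℚ τ.S, β ≠ 0 → ∀ x ∈ τ.wt β, x ∈ A.R ρ ξ := by
  obtain ⟨hCL, Q, q1, q2, q3, q4⟩ := hM L Γ A H ρ
  let B : Set L := {y | ∃ ζ, SP C ζ ∧ y ∈ A.R ρ ζ}
  have both : ∀ σ, Diag σ → ∀ x ∈ pos σ, ∀ y ∈ pos σ, x ∈ B → y ∈ B →
      ∃ ζ, SP C ζ ∧ x ∈ A.R ρ ζ ∧ y ∈ A.R ρ ζ := by
    rintro σ hσ x hx y hy ⟨ζ₁, a1, a2⟩ ⟨ζ₂, b1, b2⟩
    exact ⟨Q y ζ₁, q4 C hC hc hi y ζ₂ ζ₁ b1 b2 a1, (q3 σ hσ x hx y hy ζ₁).2 a2,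
      q1 y (hσ.nil_of_mem_pos hy) ζ₁⟩
  have hB : CL B :=
    ⟨⟨ζ, hζ, (hCL ζ).zero⟩, fun c x ⟨ζ, a1, a2⟩ => ⟨ζ, a1, (hCL ζ).smul c x a2⟩,
      fun σ hσ x hx y hy a b => let ⟨ζ, c1, c2, c3⟩ := both σ hσ x hx y hy a b
        ⟨ζ, c1, (hCL ζ).add σ hσ x hx y hy c2 c3⟩,
      fun σ hσ x hx y hy a b => let ⟨ζ, c1, c2, c3⟩ := both σ hσ x hx y hy a b
        ⟨ζ, c1, (hCL ζ).lie σ hσ x hx y hy c2 c3⟩⟩
  have hall : ∀ β : Module.Dual ℚ τ.S, β ≠ 0 → ∀ x ∈ τ.wt β, x ∈ B := fun β hβ x hx => by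
    refine two' hB ?_ hθ hv hv0 ⟨ζ, hζ, hvR⟩ hβ hx
    rintro β γ ⟨σ, h1, h2⟩ x y hx hy ⟨ζ, a1, a2⟩
    have hx1 := wt_pos h1 hx
    have hn := (τ.diag' σ).nil_of_mem_pos hx1
    obtain ⟨N, hN⟩ := id hn
    obtain ⟨M, hM, hl⟩ := exists_smul_mem_lat A.b x
    have h3 : (ad x ^ (N + 2)) y = 0 := by rw [pow_add, hN]; simp
    have hM' : (M : ℚ) ≠ 0 := by exact_mod_cast hM.ne'
    have h4 := vander_inf (W := clSub hB (τ.diag' σ)) (N := N + 2)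
      (w := fun i => (i.factorial : ℚ)⁻¹ • (ad x ^ i) y)
      (T := Set.range fun t : ℕ => (t : ℚ) * M)
      (Set.infinite_range_of_injective fun a b h => Nat.cast_injective (mul_right_cancel₀ hM' h))
      (by
        rintro _ ⟨t, rfl⟩
        rw [← ex_smul_apply hn h3]
        refine ⟨?_, ex_mem
          (fun z hz => lie_mem_pos (Submodule.smul_mem _ _ hx1) hz) (wt_pos h2 hy)⟩
        have h5 : ((t : ℚ) * M) • x ∈ lat A.b := by rw [mul_smul]; exact lat_nat_smul hl t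
        rw [← A.act_E _ h5 (hn.smul _)]
        rw [mem_R] at a2
        exact ⟨_, a1.map ρ hi _, (mem_R A ρ).2 ⟨(act_aut A _).nil a2.1, Hs_conj A ρ a2.1 a2.2 _⟩⟩)
      1 (by omega)
    simpa using h4.1
  obtain ⟨ξ, h1, h2⟩ := h3 L τ H (A.R ρ) Q (SP C) hCL q1 q2 q3 (fun β hβ y hy ξ hξ =>
    let ⟨ζ, a1, a2⟩ := hall β hβ y hy
    q4 C hC hc hi y ζ ξ a1 a2 hξ) ⟨ζ, hζ⟩
  exact ⟨ξ, h1, hCL ξ, h2⟩

end Pool.Agent.MP_2b113a_an.H33
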