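import Pool.Agent.MP_2b113a_an.H33.CA
import Pool.Agent.MP_2b113a_an.H49.Final

/-!
The assembly of the theorem from its parts.
-/

namespace Pool.Agent.MP_2b113a_an.H33

open MeasureTheory
open scoped Pointwise

/-- The parts of the proof. -/
structure Parts : Prop where
  koop : KoopStmt
  cone : ConeStmt
  conf : ConfStmt
  pair : PairStmt
  plane : Plane2Stmt
  space : Space3Stmt
  mst : MStmt
  three : ThreeStmt
  u : UStmt
  ergT : ErgTStmt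
  am : AMStmt
  hb : HBStmt
  lg0 : LG0Stmt
  facts : FactsStmt
  unimod : UnimodStmt
  ag : AGStmt
  latt : LatStmt

theorem main_lat (P : Parts) {L : Type} [LieRing L] [LieAlgebra ℚ L] [Module.Finite ℚ L]
    [LieAlgebra.IsSimple ℚ L] (τ : Tor L) {V : Type} [NormedAddCommGroup V] [NormedSpace ℝ V]
    [FiniteDimensional ℝ V] {G : Type} [Group G] [TopologicalSpace G] [IsTopologicalGroup G]
    [T2Space G] [LocallyCompactSpace G] [SecondCountableTopology G] [MeasurableSpace G]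
    [BorelSpace G] (m : Measure G) [m.IsHaarMeasure] [m.IsMulRightInvariant] (Γ : Subgroup G)
    [Countable Γ] (Λ : Lat m Γ) (𝒢 : LG L V G) (hF : 𝒢.Facts) (A : AG L Γ)
    (hA : ∀ x ∈ lat A.b, Nil x → (A.E x : G) = 𝒢.E (𝒢.j x)) {X : Type} [MeasurableSpace X]
    [MulAction Γ X] (μ : Measure X) [IsProbabilityMeasure μ] (hμ : H83.EC Γ μ) :
    ∃ ν : Measure X, IsProbabilityMeasure ν ∧ ν ≪ μ ∧ μ ≪ ν ∧
      ∀ γ : Γ, ν.map (fun x : X => γ • x) = ν := by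
  obtain ⟨K⟩ := P.koop Γ X μ hμ
  obtain ⟨c1, c2, c3⟩ := P.cone X μ
  have hi : ∀ g, ∀ η ∈ {f : Lp ℝ 2 μ | ∀ᵐ x ∂μ, 0 ≤ f x},
      K.π g η ∈ {f : Lp ℝ 2 μ | ∀ᵐ x ∂μ, 0 ≤ f x} := fun g η (hη : ∀ᵐ x ∂μ, 0 ≤ η x) => by
    filter_upwards [K.π_ae g η, K.r_pos g, (K.qmp g⁻¹).ae hη] with x e1 e2 e3
    rw [e1]
    exact mul_nonneg e2.le e3
  obtain ⟨θ, hθ, v₀, hv, hv0, hconf⟩ := P.conf L τ
  obtain ⟨N, hN, h1, h2, ν, a1, a2, a3, a4⟩ := exists_inv_root A P.plane P.space μ hμ hconf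
  obtain ⟨f, f1, f2⟩ := K.of_inv _ ν a1 a2 a3 a4
  obtain ⟨ξ, x1, x2, x3⟩ := exists_all A K.π P.mst P.three τ c1 c2 hi hθ hv hv0 ((c3 f).2 f1)
    (mem_R_of_fix A K.π hN h1 h2 f2)
  obtain ⟨π⟩ := P.pair L τ
  obtain ⟨X₁, y1, y2⟩ := Submodule.exists_mem_ne_zero_of_ne_bot π.low_ne
  obtain ⟨M, hM, y3⟩ := exists_smul_mem_lat A.b X₁
  have y4 : (M : ℚ) • X₁ ∈ eig (π.s₂ : L) π.d := Submodule.smul_mem _ _ y1
  have y5 : (M : ℚ) • X₁ ≠ 0 := smul_ne_zero (by exact_mod_cast hM.ne') y2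
  have y6 := (τ.diag' _).nil_of_mem_eig π.d_neg.ne y4
  obtain ⟨hE, hT⟩ := P.ergT L V G m Γ Λ 𝒢 hF
  obtain ⟨l, l1, l2, -⟩ := τ.exists_cflag (π.s₁ + π.s₂) A.b
  have hs₂ : π.s₂ ≠ 0 := fun e => by simpa [e] using π.α₂
  have hAM := P.am L V G m Γ Λ 𝒢 hF π.s₁ π.s₂ _ π.d l (fun Q => A.E ((Q : ℚ) • (M : ℚ) • X₁))
    (τ.diag' _) (τ.diag' _) (τ.comm _ π.s₁.2 _ π.s₂.2)
    (hE _ (τ.diag' _) (by simpa using π.ne₁)) (hE _ (τ.diag' _) (by simpa using hs₂))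
    (l1.flag fun x hx => l2 ▸ mem_sp hx)
    (l2 ▸ τ.fil_le fun β (hβ : 0 < β π.s₁) hb x hx => H99.wt_pos (by
      rw [map_add]
      linarith [nonneg_of_mul_nonneg_right (π.compat β hb) hβ]) hx)
    (l2 ▸ τ.fil_le fun β (hβ : 0 < β π.s₂) hb x hx => H99.wt_pos (by
      rw [map_add]
      linarith [nonneg_of_mul_nonneg_left (π.compat β hb) hβ]) hx)
    (fun y hy => by
      rw [l2] at hy ⊢
      exact ⟨lie_fil_of_comm (τ.comm _ (π.s₁ + π.s₂).2 _ π.s₁.2) hy,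
        lie_fil_of_comm (τ.comm _ (π.s₁ + π.s₂).2 _ π.s₂.2) hy⟩)
    (π.gen 1 one_ne_zero _ fun β _ hβ x hx i => by
      have hY : π.Y ∈ LieSubalgebra.lieSpan ℚ L (par (π.s₁ : L) ∪ par (π.s₂ : L)) :=
        LieSubalgebra.subset_lieSpan (Or.inl (mem_par (by simp [π.α₁])
          (τ.wt_le_eig _ π.s₁ π.Y_mem)))
      exact ex_mem (W := (LieSubalgebra.lieSpan ℚ L _).toSubmodule)
        (fun y hy => LieSubalgebra.lie_mem _ (LieSubalgebra.smul_mem _ _ hY) hy)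
        (LieSubalgebra.subset_lieSpan (Or.inr (mem_par hβ (τ.wt_le_eig β π.s₂ hx)))))
    y4 π.d_neg.ne y5 (fun Q => by
      rw [hA _ (lat_nat_smul y3 Q) (y6.smul _), 𝒢.j_smul, Rat.cast_natCast])
  obtain ⟨F, F1, F2⟩ := P.hb Γ X μ K _ ξ (hT v₀ hconf) hAM ((c3 ξ).1 x1)
    (P.u L τ π Γ A _ K.π ξ x2 x3 _ y4)
  exact K.to_inv F F1 F2

/-- The final theorem. Only one half of commensurability is assumed. -/
def Final2Stmt : Prop :=
  ∀ (n : ℕ) (L : Type) [LieRing L] [LieAlgebra ℚ L] [LieAlgebra.IsSimple ℚ L]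
    (b : Module.Basis (Fin n) ℚ L) (s₁ s₂ : L), LinearIndependent ℚ ![s₁, s₂] → ⁅s₁, s₂⁆ = 0 →
    Diag s₁ → Diag s₂ →
    ∀ (G : Type) [Group G] [TopologicalSpace G] [IsTopologicalGroup G] [ConnectedSpace G]
      [T2Space G] [LocallyCompactSpace G] [SecondCountableTopology G] [MeasurableSpace G]
      [BorelSpace G] (Ad : G →* Aut b), IsCoveringMap Ad →
      ∀ (Γ : Subgroup G) [DiscreteTopology Γ] (m : Measure G) [m.IsHaarMeasure] (D : Set G),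
        IsFundamentalDomain Γ D m → m D ≠ ⊤ → (AutZ b).relIndex (Γ.map Ad) ≠ 0 →
        ∀ (X : Type) [MeasurableSpace X] [MulAction Γ X] (μ : Measure X)
          [IsProbabilityMeasure μ], H83.EC Γ μ →
          ∃ ν : Measure X, IsProbabilityMeasure ν ∧ ν ≪ μ ∧ μ ≪ ν ∧
            ∀ γ : Γ, ν.map (fun x : X => γ • x) = ν

theorem final_of (P : Parts) : Final2Stmt := by
  intro n L _ _ _ b s₁ s₂ hi hc d₁ d₂ G _ _ _ _ _ _ _ _ _ Ad hAd Γ _ m _ D hD hfin hcom X _ _ μ _ hμ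
  have : Module.Finite ℚ L := Module.Finite.of_basis b
  obtain ⟨τ⟩ := exists_tor hi hc d₁ d₂
  obtain ⟨𝒢, g1, g2⟩ := P.lg0 n L b G Ad hAd
  have hF := P.facts L _ G 𝒢
  have := P.unimod L _ G m 𝒢 hF s₁ d₁ (hi.ne_zero 0)
  obtain ⟨hd, hA⟩ := P.ag n L b G Ad 𝒢 hF g1 g2
  have hr : (Γ ⊓ (AutZ b).comap Ad).relIndex Γ ≠ 0 := by
    rw [inf_comm, Subgroup.inf_relIndex_right, Subgroup.relIndex_comap]
    exact hcom
  obtain ⟨hcount, ⟨Λ⟩, hidx⟩ := P.latt G m Γ _ D hD hfin inf_le_left hr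
  obtain ⟨A, hA⟩ := hA _ inf_le_right (hidx _ hd inf_le_right)
  let ι : (Γ ⊓ (AutZ b).comap Ad : Subgroup G) →* Γ := Subgroup.inclusion inf_le_left
  let : MulAction (Γ ⊓ (AutZ b).comap Ad : Subgroup G) X := MulAction.compHom X ι
  have e : ∀ (d : (Γ ⊓ (AutZ b).comap Ad : Subgroup G)) (x : X), d • x = ι d • x := fun _ _ => rfl
  obtain ⟨ν, hν, h1, h2, h3⟩ := main_lat P τ m _ Λ 𝒢 hF A hA μ
    ⟨fun d => hμ.meas (ι d), fun d => hμ.ns (ι d), fun d W hW H =>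
      hμ.cons (ι d) W hW fun k hk => by simpa only [e, map_zpow] using H k hk⟩
  have hac : ∀ g : Γ, (μ.map fun x : X => g • x) ≪ μ := by
    intro g
    refine Measure.AbsolutelyContinuous.mk fun s hs h0 => ?_
    rw [Measure.map_apply (hμ.meas g) hs]
    have := hμ.ns g⁻¹ s hs h0
    convert this using 2
    ext x
    constructor
    · intro hx
      exact ⟨g • x, hx, by simp⟩
    · rintro ⟨y, hy, rfl⟩
      simpa using hy
  let S := (Γ ⊓ (AutZ b).comap Ad).subgroupOf Γ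
  have : S.FiniteIndex := ⟨hr⟩
  refine H49.exists_invariant hμ.meas hac (((H49.bdd_finite hμ.meas hac
    (Set.finite_range fun q : Γ ⧸ S => q.out)).mul hμ.meas
    (H49.bdd_of_invariant hμ.meas h1 h2)).mono fun g _ => ?_)
  obtain ⟨h, hh⟩ := QuotientGroup.mk_out_eq_mul S g
  refine ⟨_, ⟨(g : Γ ⧸ S), rfl⟩, (h : Γ)⁻¹, h3 ⟨_, (h⁻¹).2⟩, ?_⟩
  simp [hh]

end Pool.Agent.MP_2b113a_an.H33
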